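import Pool.Agent.Lib_MP_42f051_lc.Defs

/-!
# Fair division with few shared objects: definitions

Instance of the reduction for EF-SharedObj(n, n - 2). Agents `0` (receiver), `1` (neutral), `2` (payer
with the numbers), `3, ..., n - 1` (payers). Objects `(b, c)`, `b < n`, `c ≤ N`, where `(0, c + 1)` is
the number object with the weight `a c`.
-/

namespace Pool.Agent.FairDivS

open Pool.Agent.FairDiv

open scoped Classical in
/-- The number of shared objects: the objects of which some agent owns a proper positive part. -/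
noncomputable def sharedObj {n m : ℕ} (z : Fin n → Fin m → ℝ) : ℕ :=
  (Finset.univ.filter fun o => ∃ i, 0 < z i o ∧ z i o < 1).card

/-- The decision problem EF-SharedObj(n, s). -/
def EFSharedObj (n s : ℕ) (y : List ℕ) : Prop :=
  ∃ z : Fin n → Fin (y.length / n) → ℝ, IsAlloc z ∧ IsEF (mat n y) z ∧ sharedObj z ≤ s

/-! ### The instance -/

/-- the lowest digit of the special objects -/
def es (i b : ℕ) : ℕ := if i = 2 ∧ b = 2 then 4 else 0

/-- third level of the special objects (subtracted) -/
def xs (τ i b : ℕ) : ℕ := if i = 2 ∧ b = 0 then τ else if i = 2 ∧ b = 2 then 2 * τ else 0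

/-- second level of the special objects -/
def ys (n i b : ℕ) : ℕ :=
  if b = 0 then (if i = 0 then 4 else if i = 2 then 2 else 0)
  else if b = 1 then (if i ≤ 1 then 3 * n - 2 else 3 * n - 4)
  else if i = b then 3 * n - 1 else 3 * n - 2

/-- an entry of the matrix -/
def ent (t D L e X Y : ℕ) : ℕ :=
  2 ^ (2 * t) * (e + 8 * X) + 2 ^ (4 * t + 3 * D + 3) * (Y + 2 ^ (L + 6 * t))

/-- The instance for the weights `A` (less than `8 ^ D`) and the target `τ`; here `t` is the number
of entries. -/
def instS (n D τ : ℕ) (A : List ℕ) : List ℕ :=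
  (List.range n).flatMap fun i => (List.range n).flatMap fun b =>
    ent (n * (n * (A.length + 1))) D (3 * n) (es i b) (8 ^ D - 1 - xs τ i b) (ys n i b) ::
      A.map fun a => ent (n * (n * (A.length + 1))) D (3 * n) 0
        (8 ^ D - 1 - (if i = 2 ∧ b = 0 then a else 0)) (3 * n - 2)

/-! ### The scaled matrix -/

/-- the deviation of the value (for the agent `i`) of the object `(b, c)` from the common value `M`,
in the unit of the second level -/
noncomputable def w (n τ : ℕ) (U σ : ℝ) (a : ℕ → ℕ) (i b c : ℕ) : ℝ :=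
  if c = 0 then
    if b = 0 then (if i = 0 then -(3 * (n : ℝ) - 6) else if i = 2 then -(3 * (n : ℝ) - 4 + τ * U)
      else -(3 * (n : ℝ) - 2))
    else if b = 1 then (if i ≤ 1 then 0 else -2)
    else if b = i then (if i = 2 then 1 - 2 * τ * U + σ else 1) else 0
  else if b = 0 ∧ i = 2 then -(U * a (c - 1)) else 0

/-- the conditions for the parameters -/
structure Par (n N τ : ℕ) (U σ g M : ℝ) : Prop where
  hU : 0 < U
  hσ : σ = U / 2
  hg : 0 ≤ g
  h1 : 4 * n * (n * (N + 1)) * g ≤ σ
  h2 : 40 * n * (6 * τ * U + 2 * σ) ≤ 1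
  h3 : 100 * (τ + 1) * (n : ℝ) ^ 2 * (3 * n + 4) ≤ M

end Pool.Agent.FairDivS
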