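import Pool.Agent.Lib_MP_42f051_lc_s.SComb

/-!
# The size of the entries
-/

namespace Pool.Agent.FairDivS

theorem ent_le {t D L e X Y : ℕ} (he : e < 8) (hX : X < 8 ^ D) (hY : Y < 2 ^ L) :
    ent t D L e X Y ≤ 2 ^ (10 * t + 3 * D + L + 5) := by
  unfold ent
  have h8 : 8 ^ D = 2 ^ (3 * D) := by rw [pow_mul]; norm_num
  have h1 : 2 ^ (2 * t) * (e + 8 * X) ≤ 2 ^ (10 * t + 3 * D + L + 4) := by
    calc 2 ^ (2 * t) * (e + 8 * X) ≤ 2 ^ (2 * t) * (8 * 8 ^ D) := Nat.mul_le_mul_left _ (by omega)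
      _ = 2 ^ (2 * t + (3 + 3 * D)) := by rw [h8, pow_add, pow_add]; norm_num
      _ ≤ _ := Nat.pow_le_pow_right (by norm_num) (by omega)
  have h2 : 2 ^ (4 * t + 3 * D + 3) * (Y + 2 ^ (L + 6 * t)) ≤ 2 ^ (10 * t + 3 * D + L + 4) := by
    have : 2 ^ L ≤ 2 ^ (L + 6 * t) := Nat.pow_le_pow_right (by norm_num) (by omega)
    calc 2 ^ (4 * t + 3 * D + 3) * (Y + 2 ^ (L + 6 * t))
        ≤ 2 ^ (4 * t + 3 * D + 3) * (2 ^ (L + 6 * t) * 2) := Nat.mul_le_mul_left _ (by omega)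
      _ = 2 ^ (4 * t + 3 * D + 3 + (L + 6 * t + 1)) := by rw [← pow_succ, ← pow_add]
      _ ≤ _ := Nat.pow_le_pow_right (by norm_num) (by omega)
  calc _ ≤ 2 ^ (10 * t + 3 * D + L + 4) + 2 ^ (10 * t + 3 * D + L + 4) := Nat.add_le_add h1 h2
    _ = 2 ^ (10 * t + 3 * D + L + 5) := by rw [← two_mul, ← pow_succ']

theorem instS_le {n : ℕ} (hn : 3 ≤ n) {D : ℕ} (τ : ℕ) {A : List ℕ} (hD : D ≤ A.length) :
    ∀ a ∈ instS n D τ A, a ≤ 2 ^ (20 * (instS n D τ A).length) := by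
  intro a ha
  rw [instS_length]
  have h8 : 0 < 8 ^ D := by positivity
  have hY : 3 * n < 2 ^ (3 * n) := Nat.lt_two_pow_self
  have hYi : ∀ i b, ys n i b < 2 ^ (3 * n) := by
    intro i b
    unfold ys
    split_ifs <;> omega
  have hei : ∀ i b, es i b < 8 := by
    intro i b
    unfold es
    split_ifs <;> omega
  have h9 : 9 * (A.length + 1) ≤ n * (n * (A.length + 1)) := by
    calc 9 * (A.length + 1) = 3 * (3 * (A.length + 1)) := by ring
      _ ≤ n * (n * (A.length + 1)) := Nat.mul_le_mul hn (Nat.mul_le_mul_right _ hn)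
  have h3n : 3 * n ≤ n * (n * (A.length + 1)) := by
    calc 3 * n = n * 3 := by ring
      _ ≤ n * (n * (A.length + 1)) := Nat.mul_le_mul_left _
        (hn.trans (Nat.le_mul_of_pos_right _ (by omega)))
  have key : ∀ e X Y : ℕ, e < 8 → X < 8 ^ D → Y < 2 ^ (3 * n) →
      ent (n * (n * (A.length + 1))) D (3 * n) e X Y ≤ 2 ^ (20 * (n * (n * (A.length + 1)))) :=
    fun e X Y h1 h2 h3 => (ent_le h1 h2 h3).trans
      (Nat.pow_le_pow_right (by norm_num) (by omega))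
  unfold instS at ha
  obtain ⟨i, -, ha⟩ := List.mem_flatMap.1 ha
  obtain ⟨b, -, ha⟩ := List.mem_flatMap.1 ha
  rcases List.mem_cons.1 ha with rfl | ha
  · exact key _ _ _ (hei i b) (by omega) (hYi i b)
  · obtain ⟨x, -, rfl⟩ := List.mem_map.1 ha
    exact key _ _ _ (by norm_num) (by omega) (by omega)

end Pool.Agent.FairDivS
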