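import Pool.Agent.Lib_MP_42f051_lc.Comb
import Pool.Agent.Lib_MP_42f051_lc_s.SDefs

/-!
# From the list of the entries to the scaled matrix
-/

namespace Pool.Agent.FairDivS

open Pool.Agent.FairDiv

theorem instS_length (n D τ : ℕ) (A : List ℕ) :
    (instS n D τ A).length = n * (n * (A.length + 1)) := by
  unfold instS
  rw [List.length_flatMap]
  simp [List.length_flatMap]

/-- the entries of the instance -/
theorem instS_getD {n : ℕ} (D τ : ℕ) (A : List ℕ) {i b c : ℕ} (hi : i < n) (hb : b < n)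
    (hc : c < A.length + 1) :
    (instS n D τ A).getD (i * (n * (A.length + 1)) + (b * (A.length + 1) + c)) 0 =
      if c = 0 then ent (n * (n * (A.length + 1))) D (3 * n) (es i b) (8 ^ D - 1 - xs τ i b)
        (ys n i b)
      else ent (n * (n * (A.length + 1))) D (3 * n) 0
        (8 ^ D - 1 - (if i = 2 ∧ b = 0 then A.getD (c - 1) 0 else 0)) (3 * n - 2) := by
  have hbc : b * (A.length + 1) + c < n * (A.length + 1) := by
    have : (b + 1) * (A.length + 1) ≤ n * (A.length + 1) := Nat.mul_le_mul_right _ hb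
    nlinarith
  unfold instS
  rw [flatMap_getD (w := n * (A.length + 1)) (fun i => by simp [List.length_flatMap])
    (List.range n) i _ (by simpa using hi) hbc, List.getElem_range,
    flatMap_getD (w := A.length + 1) (fun i => by simp) (List.range n) b c (by simpa using hb) hc,
    List.getElem_range]
  cases c with
  | zero => simp
  | succ c =>
    have hc' : c < A.length := by omega
    rw [List.getD_cons_succ, if_neg (Nat.succ_ne_zero c), List.getD_eq_getElem?_getD,
      List.getElem?_map, List.getElem?_eq_getElem hc', Option.map_some, Option.getD_some,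
      Nat.add_sub_cancel, List.getD_eq_getElem?_getD, List.getElem?_eq_getElem hc',
      Option.getD_some]

/-- the value of an entry in units of the second level -/
theorem ent_eq {t D L e x Y : ℕ} (hx : x ≤ 8 ^ D - 1) {Q U R : ℝ}
    (hQ : Q = 2 ^ (4 * t + 3 * D + 3)) (hU : U = 2 ^ (2 * t + 3) / Q)
    (hR : R = 2 ^ (L + 6 * t) + U * ((8 : ℝ) ^ D - 1)) :
    (ent t D L e (8 ^ D - 1 - x) Y : ℝ) = Q * (R + (Y + (e / 8 : ℝ) * U - U * x)) := by
  have hQ0 : Q ≠ 0 := by rw [hQ]; positivity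
  have h1 : (1 : ℕ) ≤ 8 ^ D := Nat.one_le_pow _ _ (by norm_num)
  have hUQ : Q * U = 2 ^ (2 * t) * 8 := by
    rw [hU, mul_div_cancel₀ _ hQ0, pow_add]
    norm_num
  unfold ent
  rw [hR]
  push_cast [Nat.cast_sub hx, Nat.cast_sub h1]
  rw [← hQ]
  linear_combination (-((8 : ℝ) ^ D - 1 - x) - (e : ℝ) / 8) * hUQ

/-- the entries, compared with the idealized values -/
theorem entry_eq {n D τ t : ℕ} (hn : 3 ≤ n) (A : List ℕ) (hlt : ∀ a ∈ A, a < 8 ^ D)
    (h2τ : 2 * τ < 8 ^ D) {Q U R σ M : ℝ}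
    (hQ : Q = 2 ^ (4 * t + 3 * D + 3)) (hU : U = 2 ^ (2 * t + 3) / Q)
    (hR : R = 2 ^ (3 * n + 6 * t) + U * ((8 : ℝ) ^ D - 1)) (hσ : σ = U / 2)
    (hM : M = 3 * n - 2 + R) (i b c : ℕ) :
    ((if c = 0 then ent t D (3 * n) (es i b) (8 ^ D - 1 - xs τ i b) (ys n i b)
      else ent t D (3 * n) 0
        (8 ^ D - 1 - (if i = 2 ∧ b = 0 then A.getD (c - 1) 0 else 0)) (3 * n - 2) : ℕ) : ℝ) =
      Q * (M + w n τ U σ (fun c => A.getD c 0) i b c) := by
  have h1 : (1 : ℕ) ≤ 8 ^ D := Nat.one_le_pow _ _ (by norm_num)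
  have c1 : (((3 * n - 2 : ℕ) : ℕ) : ℝ) = 3 * n - 2 := by
    rw [Nat.cast_sub (by omega)]; push_cast; ring
  have c2 : (((3 * n - 4 : ℕ) : ℕ) : ℝ) = 3 * n - 4 := by
    rw [Nat.cast_sub (by omega)]; push_cast; ring
  have c3 : (((3 * n - 1 : ℕ) : ℕ) : ℝ) = 3 * n - 1 := by
    rw [Nat.cast_sub (by omega)]; push_cast; ring
  by_cases hc : c = 0
  · rw [if_pos hc]
    have hx : xs τ i b ≤ 8 ^ D - 1 := by
      unfold xs
      split_ifs <;> omega
    rw [ent_eq hx hQ hU hR, hM]
    congr 1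
    unfold w
    rw [if_pos hc]
    unfold es xs ys
    by_cases hb0 : b = 0
    · subst hb0
      by_cases hi0 : i = 0
      · subst hi0
        simp
        ring
      · by_cases hi2 : i = 2
        · subst hi2
          simp
          ring
        · simp [hi0, hi2]
          ring
    · by_cases hb1 : b = 1
      · subst hb1
        by_cases hi1 : i ≤ 1
        · have hi2 : i ≠ 2 := by omega
          simp [hi1, hi2, c1]
          ring
        · simp [hi1, c2]
          ring
      · by_cases hib : i = b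
        · subst hib
          by_cases hi2 : i = 2
          · subst hi2
            simp [c3, hσ]
            ring
          · simp [hb0, hb1, hi2, c3]
            ring
        · have hib' : b ≠ i := fun h => hib h.symm
          have h22 : ¬ (i = 2 ∧ b = 2) := fun h => hib (h.1.trans h.2.symm)
          simp [hb0, hb1, hib, hib', h22, c1]
          ring
  · rw [if_neg hc]
    have hx : (if i = 2 ∧ b = 0 then A.getD (c - 1) 0 else 0) ≤ 8 ^ D - 1 := by
      split_ifs
      · by_cases h : c - 1 < A.length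
        · rw [List.getD_eq_getElem _ _ h]
          have := hlt _ (List.getElem_mem h)
          omega
        · rw [List.getD_eq_default _ _ (by omega)]
          exact Nat.zero_le _
      · exact Nat.zero_le _
    rw [ent_eq hx hQ hU hR, hM]
    congr 1
    unfold w
    rw [if_neg hc]
    by_cases h : i = 2 ∧ b = 0
    · rw [if_pos h, if_pos ⟨h.2, h.1⟩, c1]
      push_cast
      ring
    · rw [if_neg h, if_neg (fun h' => h ⟨h'.2, h'.1⟩), c1]
      push_cast
      ring

/-- the parameters of the instance -/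
theorem par {n N D τ t : ℕ} (hn : 3 ≤ n) (hN : 1 ≤ N) (hD : D ≤ N) (h2τ : 2 * τ < 8 ^ D)
    (ht : t = n * (n * (N + 1))) {Q U σ g M : ℝ}
    (hQ : Q = 2 ^ (4 * t + 3 * D + 3)) (hU : U = 2 ^ (2 * t + 3) / Q) (hσ : σ = U / 2)
    (hg : g = 2 ^ t / Q)
    (hM : M = 3 * n - 2 + (2 ^ (3 * n + 6 * t) + U * ((8 : ℝ) ^ D - 1))) :
    Par n N τ U σ g M := by
  have hQ0 : 0 < Q := by rw [hQ]; positivity
  have hU0 : 0 < U := by rw [hU]; positivity
  have ht6 : 6 * n ≤ t := by
    rw [ht]
    have : 6 ≤ n * (N + 1) := by nlinarith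
    nlinarith
  have ht18 : 18 ≤ t := by omega
  have htt : t < 2 ^ t := Nat.lt_two_pow_self
  have h128 : 2 ^ 18 ≤ 2 ^ t := Nat.pow_le_pow_right (by norm_num) ht18
  refine ⟨hU0, hσ, by rw [hg]; positivity, ?_, ?_, ?_⟩
  · have e1 : 4 * (n : ℝ) * (n * (N + 1)) * g = (4 * t) * 2 ^ t / Q := by
      rw [hg, ht]
      push_cast
      ring
    have e2 : σ = 4 * 2 ^ t * 2 ^ t / Q := by
      rw [hσ, hU, show 2 * t + 3 = t + t + 3 by omega, pow_add, pow_add]
      ring
    rw [e1, e2]
    have htR : (t : ℝ) ≤ 2 ^ t := by exact_mod_cast htt.le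
    gcongr
  · have hτR : 6 * (τ : ℝ) + 1 ≤ 3 * 8 ^ D := by
      have : 6 * τ + 1 ≤ 3 * 8 ^ D := by omega
      exact_mod_cast this
    have hUQ : U * 8 ^ D = 1 / (2 ^ t * 2 ^ t) := by
      rw [hU, hQ, show (8 : ℝ) = 2 ^ 3 by norm_num, ← pow_mul,
        show 4 * t + 3 * D + 3 = (2 * t + 3) + 3 * D + (t + t) by omega, pow_add _ _ (t + t),
        pow_add _ t t, pow_add _ (2 * t + 3) (3 * D)]
      field_simp
    have h120 : 120 * (n : ℝ) ≤ 2 ^ t * 2 ^ t := by
      have : 120 * n ≤ 2 ^ t * 2 ^ t :=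
        Nat.mul_le_mul (le_trans (by norm_num) h128) (by omega)
      exact_mod_cast this
    calc 40 * (n : ℝ) * (6 * τ * U + 2 * σ) = 40 * n * ((6 * τ + 1) * U) := by rw [hσ]; ring
      _ ≤ 40 * n * (3 * 8 ^ D * U) := by gcongr
      _ = 120 * n * (U * 8 ^ D) := by ring
      _ = 120 * n / (2 ^ t * 2 ^ t) := by rw [hUQ]; ring
      _ ≤ 1 := by rw [div_le_one (by positivity)]; exact h120
  · have h8 : 8 ^ D ≤ 2 ^ t := by
      calc 8 ^ D = 2 ^ (3 * D) := by rw [pow_mul]; norm_num
        _ ≤ 2 ^ t := Nat.pow_le_pow_right (by norm_num) (by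
            rw [ht]
            exact Nat.mul_le_mul hn (le_trans (by omega : D ≤ N + 1)
              (Nat.le_mul_of_pos_left _ (by omega))))
    have hn2 : n ^ 2 ≤ 2 ^ t := by
      refine le_trans ?_ htt.le
      rw [ht, sq]
      exact Nat.mul_le_mul_left _ (Nat.le_mul_of_pos_right _ (by omega))
    have key : 100 * (τ + 1) * n ^ 2 * (3 * n + 4) ≤ 2 ^ (3 * n + 6 * t) := by
      calc 100 * (τ + 1) * n ^ 2 * (3 * n + 4) ≤ 2 ^ t * 2 ^ t * 2 ^ t * 2 ^ t :=
            Nat.mul_le_mul (Nat.mul_le_mul (Nat.mul_le_mul (le_trans (by norm_num) h128)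
              (le_trans (by omega) h8)) hn2) (by omega)
        _ = 2 ^ (t + t + t + t) := by rw [pow_add, pow_add, pow_add]
        _ ≤ 2 ^ (3 * n + 6 * t) := Nat.pow_le_pow_right (by norm_num) (by omega)
    have keyR : 100 * ((τ : ℝ) + 1) * (n : ℝ) ^ 2 * (3 * n + 4) ≤ 2 ^ (3 * n + 6 * t) := by
      exact_mod_cast key
    rw [hM]
    have h3 : (0 : ℝ) ≤ 3 * n - 2 := by
      have : (3 : ℝ) ≤ n := by exact_mod_cast hn
      linarith
    have h4 : 0 ≤ U * ((8 : ℝ) ^ D - 1) :=
      mul_nonneg hU0.le (sub_nonneg.2 (one_le_pow₀ (by norm_num)))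
    linarith

open scoped Classical in
/-- The decision problem for the vectors near the instance, in terms of a scaled matrix. -/
theorem exists_core {n : ℕ} (hn : 3 ≤ n) (D τ : ℕ) (A : List ℕ) (hA : A ≠ [])
    (hlt : ∀ a ∈ A, a < 8 ^ D) (h2τ : 2 * τ < 8 ^ D) (hD : D ≤ A.length) (y : List ℕ)
    (hy : y.length = (instS n D τ A).length)
    (hd : ∀ i, |((y.getD i 0 : ℕ) : ℤ) - ((instS n D τ A).getD i 0 : ℕ)| ≤
      ((2 ^ (instS n D τ A).length : ℕ) : ℤ)) :
    ∃ (U σ g M : ℝ) (v : Fin n → Fin n × Fin (A.length + 1) → ℝ),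
      Par n A.length τ U σ g M ∧
      (∀ i o, |v i o - (M + w n τ U σ (fun c => A.getD c 0) i o.1 o.2)| ≤ g) ∧
      (EFSharedObj n (n - 2) y ↔ ∃ z : Fin n → Fin n × Fin (A.length + 1) → ℝ,
        (∀ i o, 0 ≤ z i o) ∧ (∀ o, ∑ i, z i o = 1) ∧
        (∀ i j, ∑ o, v i o * z j o ≤ ∑ o, v i o * z i o) ∧
        (Finset.univ.filter fun o => ∃ i, 0 < z i o ∧ z i o < 1).card ≤ n - 2) := by
  rw [instS_length] at hy hd
  set N := A.length with hN
  have hm : y.length / n = n * (N + 1) := by
    rw [hy, Nat.mul_div_cancel_left _ (by omega)]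
  unfold EFSharedObj
  have hmat : ∀ i o, mat n y i o = y.getD (i.val * (y.length / n) + o.val) 0 := fun _ _ => rfl
  revert hmat
  generalize mat n y = v'
  revert v'
  rw [hm]
  intro v' hmat
  set t := n * (n * (N + 1)) with ht
  set Q : ℝ := 2 ^ (4 * t + 3 * D + 3) with hQ
  set U : ℝ := 2 ^ (2 * t + 3) / Q with hU
  set R : ℝ := 2 ^ (3 * n + 6 * t) + U * ((8 : ℝ) ^ D - 1) with hR
  have hQ0 : 0 < Q := by rw [hQ]; positivity
  have hN1 : 1 ≤ N := List.length_pos_iff.2 hA
  refine ⟨U, U / 2, 2 ^ t / Q, 3 * n - 2 + R, fun i o => (v' i (finProdFinEquiv o) : ℝ) / Q,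
    par hn hN1 hD h2τ ht hQ hU rfl rfl rfl, ?_, ?_⟩
  · rintro i ⟨b, c⟩
    have hval : ((finProdFinEquiv (b, c) : Fin (n * (N + 1))) : ℕ) = b * (N + 1) + c := by
      simp only [finProdFinEquiv_apply_val]
      ring
    have h1 := hd (i.val * (n * (N + 1)) + (b.val * (N + 1) + c.val))
    have hget := instS_getD D τ A i.2 b.2 c.2
    rw [← hN, ← ht] at hget
    rw [hget] at h1
    have h2 := entry_eq (t := t) hn A hlt h2τ hQ hU hR (σ := U / 2) rfl
      (M := 3 * n - 2 + R) rfl i b c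
    have h3 := hmat i (finProdFinEquiv (b, c))
    rw [hval] at h3
    rw [← h3] at h1
    have h4 : |((v' i (finProdFinEquiv (b, c)) : ℕ) : ℝ) -
        Q * (3 * n - 2 + R + w n τ U (U / 2) (fun c => A.getD c 0) i b c)| ≤ 2 ^ t := by
      rw [← h2]
      exact_mod_cast h1
    have h5 : (v' i (finProdFinEquiv (b, c)) : ℝ) / Q -
        (3 * n - 2 + R + w n τ U (U / 2) (fun c => A.getD c 0) i b c) =
        ((v' i (finProdFinEquiv (b, c)) : ℝ) -
        Q * (3 * n - 2 + R + w n τ U (U / 2) (fun c => A.getD c 0) i b c)) / Q := by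
      field_simp
    show |(v' i (finProdFinEquiv (b, c)) : ℝ) / Q -
      (3 * n - 2 + R + w n τ U (U / 2) (fun c => A.getD c 0) i b c)| ≤ 2 ^ t / Q
    rw [h5, abs_div, abs_of_pos hQ0]
    gcongr
  · constructor
    · rintro ⟨z, hz, hEF, hs⟩
      refine ⟨fun i o => z i (finProdFinEquiv o), fun i o => hz.nonneg _ _,
        fun o => hz.total _, fun i j => ?_, ?_⟩
      · have h := hEF i j
        unfold val at h
        have e : ∀ j, ∑ o : Fin n × Fin (N + 1), (v' i (finProdFinEquiv o) : ℝ) / Q *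
            z j (finProdFinEquiv o) = (∑ o, (v' i o : ℝ) * z j o) / Q := by
          intro j
          rw [Finset.sum_div, ← finProdFinEquiv.sum_comp]
          exact Finset.sum_congr rfl fun o _ => by ring
        rw [e, e]
        gcongr
      · unfold sharedObj at hs
        refine le_trans (le_of_eq ?_) hs
        refine Finset.card_equiv finProdFinEquiv fun o => ?_
        simp only [Finset.mem_filter, Finset.mem_univ, true_and]
    · rintro ⟨z, h0, h1, hEF, hs⟩
      refine ⟨fun i o => z i (finProdFinEquiv.symm o), ⟨fun i o => h0 _ _, fun o => h1 _⟩,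
        fun i j => ?_, ?_⟩
      · have h := hEF i j
        unfold val
        have e : ∀ j, ∑ o : Fin (n * (N + 1)), (v' i o : ℝ) * z j (finProdFinEquiv.symm o) =
            Q * ∑ o : Fin n × Fin (N + 1), (v' i (finProdFinEquiv o) : ℝ) / Q * z j o := by
          intro j
          rw [Finset.mul_sum, ← finProdFinEquiv.sum_comp]
          refine Finset.sum_congr rfl fun o _ => ?_
          rw [Equiv.symm_apply_apply]
          field_simp
        rw [e, e]
        gcongr
      · unfold sharedObj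
        refine le_trans (le_of_eq ?_) hs
        refine Finset.card_equiv finProdFinEquiv.symm fun o => ?_
        simp only [Finset.mem_filter, Finset.mem_univ, true_and]

end Pool.Agent.FairDivS
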