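import Mathlib

/-!
# Two agents hold only whole objects and negligible shares

All `n` agents have total amounts which are close to the integer `k`, and at most `n - 2` objects are
shared. Then at least two agents hold `k` whole objects and shares of total amount at most `ε`.
-/

namespace Pool.Agent.FairDivS

open scoped Classical in
theorem count {O : Type} [Fintype O] {n k : ℕ} (hn : 2 ≤ n) {ε : ℝ} (hε : 4 * n * ε < 1)
    (z : Fin n → O → ℝ) (h0 : ∀ i o, 0 ≤ z i o) (h1 : ∀ o, ∑ i, z i o = 1)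
    (hs : (Finset.univ.filter fun o => ∃ i, 0 < z i o ∧ z i o < 1).card ≤ n - 2)
    (hy : ∀ i, |∑ o, z i o - k| ≤ ε) :
    ∃ Out : Finset (Fin n), 2 ≤ Out.card ∧
      ∀ i ∈ Out, (k : ℝ) ≤ ∑ o, z i o ∧ ∀ o, z i o ≤ ε ∨ z i o = 1 := by
  have hε0 : 0 ≤ ε := (abs_nonneg _).trans (hy ⟨0, by omega⟩)
  have hnR : (2 : ℝ) ≤ n := by exact_mod_cast hn
  have hle1 : ∀ i o, z i o ≤ 1 := fun i o => by
    rw [← h1 o]
    exact Finset.single_le_sum (f := fun i => z i o) (fun j _ => h0 j o) (Finset.mem_univ i)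
  set Sh := Finset.univ.filter fun o => ∃ i, 0 < z i o ∧ z i o < 1 with hSh
  -- outside of `Sh` all shares are `0` or `1`
  have hint : ∀ i, ∀ o ∈ Finset.univ \ Sh, z i o = if z i o = 1 then 1 else 0 := by
    intro i o ho
    split_ifs with h
    · exact h
    · by_contra hne
      apply (Finset.mem_sdiff.1 ho).2
      rw [hSh, Finset.mem_filter]
      exact ⟨Finset.mem_univ _, i, lt_of_le_of_ne (h0 i o) (Ne.symm hne),
        lt_of_le_of_ne (hle1 i o) h⟩
  have hF0 : ∀ i, 0 ≤ ∑ o ∈ Sh, z i o := fun i => Finset.sum_nonneg fun o _ => h0 i o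
  have hFle : ∀ i, ∀ o ∈ Sh, z i o ≤ ∑ o ∈ Sh, z i o := fun i o ho =>
    Finset.single_le_sum (f := fun o => z i o) (fun o _ => h0 i o) ho
  have hFsum : ∑ i, ∑ o ∈ Sh, z i o ≤ (n : ℝ) - 2 := by
    rw [Finset.sum_comm, Finset.sum_congr rfl fun o _ => h1 o, Finset.sum_const, nsmul_eq_mul,
      mul_one]
    have : ((Sh.card : ℕ) : ℝ) ≤ ((n - 2 : ℕ) : ℝ) := by exact_mod_cast hs
    rwa [Nat.cast_sub hn, Nat.cast_ofNat] at this
  -- the amount of an agent
  have hY : ∀ i, ∃ c : ℕ, ∑ o, z i o = ∑ o ∈ Sh, z i o + c := by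
    intro i
    refine ⟨((Finset.univ \ Sh).filter fun o => z i o = 1).card, ?_⟩
    rw [← Finset.sum_sdiff (Finset.subset_univ Sh), add_comm, Finset.sum_congr rfl (hint i)]
    congr 1
    rw [Finset.sum_ite, Finset.sum_const_zero, add_zero, Finset.sum_const, nsmul_eq_mul, mul_one]
  have hε8 : ε < 1 / 8 := by nlinarith
  have hsmall : ∀ i, ∑ o ∈ Sh, z i o < 1 / 2 →
      (k : ℝ) ≤ ∑ o, z i o ∧ ∑ o ∈ Sh, z i o ≤ ε := by
    intro i hi
    obtain ⟨c, hc⟩ := hY i
    have ha := abs_le.1 (hy i)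
    rw [hc] at ha ⊢
    have e : c = k := by
      apply le_antisymm
      · by_contra hlt
        have : (k : ℝ) + 1 ≤ c := by exact_mod_cast (show k + 1 ≤ c by omega)
        have := hF0 i
        linarith [ha.2]
      · by_contra hlt
        have : (c : ℝ) + 1 ≤ k := by exact_mod_cast (show c + 1 ≤ k by omega)
        linarith [ha.1]
    rw [e] at ha ⊢
    exact ⟨by linarith [hF0 i], by linarith [ha.2]⟩
  have hbig : ∀ i, ¬ ∑ o ∈ Sh, z i o < 1 / 2 → 1 - ε ≤ ∑ o ∈ Sh, z i o := by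
    intro i hi
    push Not at hi
    obtain ⟨c, hc⟩ := hY i
    have ha := abs_le.1 (hy i)
    rw [hc] at ha
    have : c + 1 ≤ k := by
      by_contra hlt
      have : (k : ℝ) ≤ c := by exact_mod_cast (show k ≤ c by omega)
      linarith [ha.2]
    have : (c : ℝ) + 1 ≤ k := by exact_mod_cast this
    linarith [ha.1]
  refine ⟨Finset.univ.filter fun i => ∑ o ∈ Sh, z i o < 1 / 2, ?_, fun i hi => ?_⟩
  · by_contra hlt
    have hcard := Finset.card_filter_add_card_filter_not (s := (Finset.univ : Finset (Fin n)))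
      (p := fun i => ∑ o ∈ Sh, z i o < 1 / 2)
    rw [Finset.card_univ, Fintype.card_fin] at hcard
    set T := Finset.univ.filter fun i => ¬ ∑ o ∈ Sh, z i o < 1 / 2 with hT
    have hTc : n ≤ T.card + 1 := by omega
    have hTR : (n : ℝ) - 1 ≤ T.card := by
      have : (n : ℝ) ≤ T.card + 1 := by exact_mod_cast hTc
      linarith
    have h2 : (T.card : ℝ) * (1 - ε) ≤ (n : ℝ) - 2 := by
      refine le_trans ?_ hFsum
      rw [← nsmul_eq_mul, ← Finset.sum_const]
      refine (Finset.sum_le_sum fun i hi => hbig i (Finset.mem_filter.1 hi).2).trans ?_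
      exact Finset.sum_le_sum_of_subset_of_nonneg (Finset.subset_univ _) fun i _ _ => hF0 i
    nlinarith
  · have h := hsmall i (Finset.mem_filter.1 hi).2
    refine ⟨h.1, fun o => ?_⟩
    by_cases ho : o ∈ Sh
    · exact Or.inl ((hFle i o ho).trans h.2)
    · have := hint i o (Finset.mem_sdiff.2 ⟨Finset.mem_univ _, ho⟩)
      split_ifs at this with h'
      · exact Or.inr h'
      · exact Or.inl (by rw [this]; exact hε0)

end Pool.Agent.FairDivS
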