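import Mathlib

/-!
# The linear core of the soundness proof
-/

namespace Pool.Agent.FairDivS

open Finset

section

variable {n : ℕ} {r s : Fin n}

theorem sum_split (hrs : r ≠ s) (f : Fin n → ℝ) :
    f r + (f s + ∑ i ∈ (univ.erase r).erase s, f i) = ∑ i, f i := by
  rw [add_sum_erase (univ.erase r) f (mem_erase.2 ⟨hrs.symm, mem_univ s⟩),
    add_sum_erase univ f (mem_univ r)]

theorem card_split (hrs : r ≠ s) (hn : 2 ≤ n) :
    (((univ.erase r).erase s).card : ℝ) = (n : ℝ) - 2 := by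
  rw [card_erase_of_mem (mem_erase.2 ⟨hrs.symm, mem_univ s⟩), card_erase_of_mem (mem_univ r),
    card_univ, Fintype.card_fin]
  have : n - 1 - 1 = n - 2 := by omega
  rw [this]
  push_cast [hn]
  ring

/-- the sum of the envy inequalities against `s` -/
theorem sumS (t x b : Fin n → ℝ) (c : Fin n → Fin n → ℝ)
    (cc : Fin n → ℝ) (hcc : ∀ i, 3 * (n : ℝ) - 4 ≤ cc i ∧ cc i ≤ 3 * n - 2)
    (hx0 : ∀ i, 0 ≤ x i) (hc0 : ∀ i j, 0 ≤ c i j) (hc1 : ∀ i j, c i j ≤ 1) {η : ℝ}
    (P : Finset (Fin n)) (hP : P ⊆ (univ.erase r).erase s)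
    (hp : ∀ i, i ≠ r → i ≠ s → ∀ j, t j - cc i * x j - 2 * b j + c i j ≤
      t i - cc i * x i - 2 * b i + c i i + η) :
    (P.card : ℝ) * t s - (P.card : ℝ) * (3 * n - 2) * x s - 2 * (P.card : ℝ) * b s ≤
      ∑ i ∈ P, t i - (3 * n - 4) * ∑ i ∈ P, x i - 2 * ∑ i ∈ P, b i + P.card + P.card * η := by
  have h : ∑ i ∈ P, (t s - (3 * n - 2) * x s - 2 * b s) ≤
      ∑ i ∈ P, (t i - (3 * n - 4) * x i - 2 * b i + 1 + η) := by
    refine sum_le_sum fun i hi => ?_
    have h1 := hP hi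
    rw [mem_erase, mem_erase] at h1
    have h2 := hp i h1.2.1 h1.1 s
    have h3 := mul_le_mul_of_nonneg_right (hcc i).2 (hx0 s)
    have h4 := mul_le_mul_of_nonneg_right (hcc i).1 (hx0 i)
    linarith [hc0 i s, hc1 i i]
  simp only [sum_add_distrib, sum_sub_distrib, ← mul_sum, sum_const, nsmul_eq_mul] at h
  linarith

/-- a payer `i` outside of the sharing set -/
theorem payerOut (hrs : r ≠ s) (hn : 3 ≤ n) (t x b : Fin n → ℝ) (c : Fin n → Fin n → ℝ)
    (cc : Fin n → ℝ) (hcc : ∀ i, 3 * (n : ℝ) - 4 ≤ cc i ∧ cc i ≤ 3 * n - 2)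
    (hx0 : ∀ i, 0 ≤ x i) (hx1 : ∑ i, x i = 1) (hb0 : ∀ i, 0 ≤ b i) (hbs : b s ≤ 1)
    (hc0 : ∀ i j, 0 ≤ c i j) (hc1 : ∀ i j, c i j ≤ 1) (ht : ∑ i, t i = 0)
    {η ε : ℝ} (hη0 : 0 ≤ η) (hε0 : 0 ≤ ε) (hη : 20 * (n * η) ≤ 1) (hε : 20 * (n * (3 * n) * ε) ≤ 1)
    (hr : ∀ j, t j - (3 * n - 6) * x j ≤ t r - (3 * n - 6) * x r + η)
    (hp : ∀ i, i ≠ r → i ≠ s → ∀ j, t j - cc i * x j - 2 * b j + c i j ≤
      t i - cc i * x i - 2 * b i + c i i + η)
    (hts : (3 * n - 2) * x s - ((3 * n - 2) * ε + η) ≤ t s)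
    {i : Fin n} (hir : i ≠ r) (his : i ≠ s) (hti : 0 ≤ t i) (hxi : x i ≤ ε) : False := by
  have hnR : (3 : ℝ) ≤ n := by exact_mod_cast hn
  have hiP : i ∈ (univ.erase r).erase s := mem_erase.2 ⟨his, mem_erase.2 ⟨hir, mem_univ i⟩⟩
  have h := sumS t x b c cc hcc hx0 hc0 hc1 (((univ.erase r).erase s).erase i)
    (erase_subset _ _) hp
  have hcard : ((((univ.erase r).erase s).erase i).card : ℝ) = (n : ℝ) - 3 := by
    have h1 := card_split (r := r) (s := s) hrs (by omega)
    have h2 : (((univ.erase r).erase s).erase i).card + 1 = ((univ.erase r).erase s).card :=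
      card_erase_add_one hiP
    have h3 : ((((univ.erase r).erase s).erase i).card : ℝ) + 1 =
        (((univ.erase r).erase s).card : ℝ) := by exact_mod_cast h2
    linarith
  rw [hcard] at h
  have e1 := sum_split hrs t
  have e2 := sum_split hrs x
  rw [← add_sum_erase _ t hiP] at e1
  rw [← add_sum_erase _ x hiP] at e2
  rw [ht] at e1
  rw [hx1] at e2
  have hB : 0 ≤ ∑ j ∈ ((univ.erase r).erase s).erase i, b j := sum_nonneg fun j _ => hb0 j
  have hX : 0 ≤ ∑ j ∈ ((univ.erase r).erase s).erase i, x j := sum_nonneg fun j _ => hx0 j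
  have hr' := hr s
  set X := ∑ j ∈ ((univ.erase r).erase s).erase i, x j
  set T := ∑ j ∈ ((univ.erase r).erase s).erase i, t j
  set B := ∑ j ∈ ((univ.erase r).erase s).erase i, b j
  have h1 : ((n : ℝ) - 1) * ((3 * n - 2) * x s - ((3 * n - 2) * ε + η)) ≤ (n - 1) * t s :=
    mul_le_mul_of_nonneg_left hts (by linarith)
  have h2 : 0 ≤ ((n : ℝ) - 3) * (1 - b s) := mul_nonneg (by linarith) (by linarith)
  have h3 : (3 * (n : ℝ) - 6) * x i ≤ (3 * n - 6) * ε :=
    mul_le_mul_of_nonneg_left hxi (by linarith)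
  have h4 : (3 * (n : ℝ) - 6) * (x r + (x s + (x i + X))) = (3 * n - 6) * 1 := by rw [e2]
  have h5 : 0 ≤ (n : ℝ) * ε := mul_nonneg (by linarith) hε0
  nlinarith [hx0 s, hx0 i, hx0 r]

theorem single_le {f : Fin n → ℝ} (h0 : ∀ i, 0 ≤ f i) (h1 : ∑ i, f i = 1) (i : Fin n) : f i ≤ 1 :=
  h1 ▸ single_le_sum (f := f) (fun j _ => h0 j) (mem_univ i)

theorem pair_le {f : Fin n → ℝ} (h0 : ∀ i, 0 ≤ f i) (h1 : ∑ i, f i = 1) {i j : Fin n}
    (hij : i ≠ j) : f i + f j ≤ 1 := by
  rw [← h1, ← sum_pair hij]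
  exact sum_le_sum_of_subset_of_nonneg (subset_univ _) fun k _ _ => h0 k

/-- **The linear core**: the second level is forced. -/
theorem lin (hn : 3 ≤ n) (p : Fin n) (hrs : r ≠ s) (hrp : r ≠ p) (hsp : s ≠ p)
    (t x b : Fin n → ℝ) (c : Fin n → Fin n → ℝ) (cc : Fin n → ℝ)
    (hcp : cc p = 3 * n - 4) (hce : ∀ i, i ≠ p → cc i = 3 * n - 2)
    (hx0 : ∀ i, 0 ≤ x i) (hx1 : ∑ i, x i = 1) (hb0 : ∀ i, 0 ≤ b i) (hb1 : ∑ i, b i = 1)
    (hc0 : ∀ i j, 0 ≤ c i j) (hc1 : ∀ i j, c i j ≤ 1) (ht : ∑ i, t i = 0)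
    {η ε : ℝ} (hη0 : 0 ≤ η) (hε0 : 0 ≤ ε) (hη : 20 * (n * η) ≤ 1) (hε : 20 * (n * (3 * n) * ε) ≤ 1)
    (hr : ∀ j, t j - (3 * n - 6) * x j ≤ t r - (3 * n - 6) * x r + η)
    (hs : ∀ j, t j - (3 * n - 2) * x j ≤ t s - (3 * n - 2) * x s + η)
    (hp : ∀ i, i ≠ r → i ≠ s → ∀ j, t j - cc i * x j - 2 * b j + c i j ≤
      t i - cc i * x i - 2 * b i + c i i + η)
    (Out : Finset (Fin n)) (hO : 2 ≤ Out.card) (hOt : ∀ i ∈ Out, 0 ≤ t i)
    (hOx : ∀ i ∈ Out, x i ≤ ε ∨ x i = 1) (hOb : ∀ i ∈ Out, b i ≤ ε ∨ b i = 1) :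
    s ∈ Out ∧ r ∈ Out ∧ x r = 1 ∧ b s = 1 := by
  have hnR : (3 : ℝ) ≤ n := by exact_mod_cast hn
  have hcc : ∀ i, 3 * (n : ℝ) - 4 ≤ cc i ∧ cc i ≤ 3 * n - 2 := by
    intro i
    by_cases h : i = p
    · rw [h, hcp]; constructor <;> linarith
    · rw [hce i h]; constructor <;> linarith
  have hnε : (n : ℝ) * ε ≤ n * (3 * n) * ε / 9 := by
    have : 0 ≤ (n : ℝ) * ε := mul_nonneg (by linarith) hε0
    nlinarith
  have hnη : 3 * η ≤ n * η := mul_le_mul_of_nonneg_right hnR hη0
  have hη1 : η ≤ 1 / 60 := by linarith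
  have hn3 : 3 * ε ≤ n * ε := mul_le_mul_of_nonneg_right hnR hε0
  have hε1 : ε ≤ 1 / 60 := by linarith
  have hx1' := single_le hx0 hx1
  have hb1' := single_le hb0 hb1
  -- a payer outside the sharing set with a small part of `α` is impossible
  have pay : ∀ i ∈ Out, i ≠ r → i ≠ s → (3 * n - 2) * x s - ((3 * n - 2) * ε + η) ≤ t s →
      ¬ x i ≤ ε := fun i hi hir his hts hxi =>
    payerOut hrs hn t x b c cc hcc hx0 hx1 hb0 (hb1' s) hc0 hc1 ht hη0 hε0 hη hε hr hp hts hir his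
      (hOt i hi) hxi
  by_cases hsO : s ∈ Out
  · -- `s` is outside of the sharing set
    have hts := hOt s hsO
    have hxs : x s ≤ ε := by
      rcases hOx s hsO with h | h
      · exact h
      · exfalso
        have h1 := hs r
        have h2 := hr s
        have h3 := pair_le hx0 hx1 hrs
        have h4 : x r = 0 := le_antisymm (by linarith) (hx0 r)
        rw [h, h4] at h1 h2
        linarith
    have h := sumS t x b c cc hcc hx0 hc0 hc1 ((univ.erase r).erase s) (subset_refl _) hp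
    rw [card_split hrs (by omega)] at h
    have e1 := sum_split hrs t
    have e2 := sum_split hrs x
    have e3 := sum_split hrs b
    rw [ht] at e1
    rw [hx1] at e2
    rw [hb1] at e3
    have hX : 0 ≤ ∑ j ∈ (univ.erase r).erase s, x j := sum_nonneg fun j _ => hx0 j
    have hB : 0 ≤ ∑ j ∈ (univ.erase r).erase s, b j := sum_nonneg fun j _ => hb0 j
    have hr' := hr s
    have hxi : ∀ i, i ≠ r → i ≠ s → x i ≤ ∑ j ∈ (univ.erase r).erase s, x j := fun i hir his =>
      single_le_sum (f := x) (fun j _ => hx0 j) (mem_erase.2 ⟨his, mem_erase.2 ⟨hir, mem_univ i⟩⟩)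
    set X := ∑ j ∈ (univ.erase r).erase s, x j
    set T := ∑ j ∈ (univ.erase r).erase s, t j
    set B := ∑ j ∈ (univ.erase r).erase s, b j
    have h5 : (n : ℝ) * (3 * n) * x s ≤ n * (3 * n) * ε :=
      mul_le_mul_of_nonneg_left hxs (by positivity)
    have h6 : (3 * (n : ℝ) - 6) * (x r + (x s + X)) = (3 * n - 6) * 1 := by rw [e2]
    have h7 : 0 ≤ (n : ℝ) * t s := mul_nonneg (by linarith) hts
    have h8 : 0 ≤ (n : ℝ) * x s := mul_nonneg (by linarith) (hx0 s)
    have main : 2 * ((n : ℝ) - 2) * (1 - b s) + 2 * X + 2 * B ≤ 1 / 10 := by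
      nlinarith [hx0 s]
    have h9 : 0 ≤ ((n : ℝ) - 3) * (1 - b s) := mul_nonneg (by linarith) (by linarith [hb1' s])
    have hbs : b s = 1 := by
      rcases hOb s hsO with h | h
      · exfalso
        linarith
      · exact h
    have hXs : X ≤ 1 / 20 := by
      have : 0 ≤ 2 * ((n : ℝ) - 2) * (1 - b s) := by
        rw [hbs]; simp
      linarith
    have hts' : (3 * n - 2) * x s - ((3 * n - 2) * ε + η) ≤ t s := by
      have : (3 * (n : ℝ) - 2) * x s ≤ (3 * n - 2) * ε :=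
        mul_le_mul_of_nonneg_left hxs (by linarith)
      linarith
    have hpO : ∀ i, i ≠ r → i ≠ s → i ∉ Out := by
      intro i hir his hi
      rcases hOx i hi with h | h
      · exact pay i hi hir his hts' h
      · have := hxi i hir his
        linarith
    have hrO : r ∈ Out := by
      by_contra hcon
      have h1 : Out ⊆ {s} := fun i hi => by
        rw [mem_singleton]
        by_contra his
        exact hpO i (fun h => hcon (h ▸ hi)) his hi
      have h2 := card_le_card h1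
      rw [card_singleton] at h2
      omega
    refine ⟨hsO, hrO, ?_, hbs⟩
    rcases hOx r hrO with h | h
    · exfalso
      linarith
    · exact h
  · -- `s` is in the sharing set: impossible
    exfalso
    have hall : ∀ i ∈ Out, i ≠ r → x i = 1 := by
      intro i hi hir
      have his : i ≠ s := fun h => hsO (h ▸ hi)
      rcases hOx i hi with h | h
      · exfalso
        refine pay i hi hir his ?_ h
        have h1 := hs i
        have h2 := hOt i hi
        have h3 : (3 * (n : ℝ) - 2) * x i ≤ (3 * n - 2) * ε :=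
          mul_le_mul_of_nonneg_left h (by linarith)
        linarith
      · exact h
    have huniq : ∀ i ∈ Out, ∀ j ∈ Out, i ≠ r → j ≠ r → i = j := by
      intro i hi j hj hir hjr
      by_contra hij
      have h1 := pair_le hx0 hx1 hij
      rw [hall i hi hir, hall j hj hjr] at h1
      linarith
    have hrO : r ∈ Out := by
      by_contra hcon
      have h1 : Out.card ≤ 1 := by
        rw [card_le_one]
        intro i hi j hj
        exact huniq i hi j hj (fun h => hcon (h ▸ hi)) (fun h => hcon (h ▸ hj))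
      omega
    obtain ⟨i, hi, hir⟩ : ∃ i ∈ Out, i ≠ r := by
      by_contra hcon
      push Not at hcon
      have h1 : Out ⊆ {r} := fun i hi => mem_singleton.2 (hcon i hi)
      have h2 := card_le_card h1
      rw [card_singleton] at h2
      omega
    have his : i ≠ s := fun h => hsO (h ▸ hi)
    have hxi := hall i hi hir
    have hx' : ∀ j, j ≠ i → x j = 0 := fun j hj => by
      have h1 := pair_le hx0 hx1 hj
      exact le_antisymm (by linarith) (hx0 j)
    have hxr := hx' r (Ne.symm hir)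
    have hxs := hx' s (Ne.symm his)
    have a1 := hp i hir his r
    have a2 := hr i
    rw [hxi, hxr] at a1 a2
    by_cases hip : i = p
    · subst hip
      rw [hcp] at a1
      have h1 := hc0 i r
      have h2 := hc1 i i
      have h3 := hb0 i
      have hbr : b r = 1 := by
        rcases hOb r hrO with h | h
        · exfalso; linarith
        · exact h
      have hbs : b s = 0 := le_antisymm (by linarith [pair_le hb0 hb1 hrs]) (hb0 s)
      have hbi : b i = 0 := le_antisymm (by linarith [pair_le hb0 hb1 hir]) (hb0 i)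
      have a3 := hs r
      have a4 := hp i hir his s
      rw [hcp, hxs, hbs, hxi, hbi] at a4
      rw [hxr, hxs] at a3
      have h4 := hc0 i s
      linarith
    · rw [hce i hip] at a1
      have h1 := hc0 i r
      have h2 := hc1 i i
      have h3 := hb0 i
      have h4 := hb1' r
      linarith

end

end Pool.Agent.FairDivS
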