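import Pool.Agent.Lib_MP_42f051_lc_s.SDefs
import Pool.Agent.Lib_MP_42f051_lc_s.SLin
import Pool.Agent.Lib_MP_42f051_lc_s.SCount

/-!
# Soundness: an envy-free allocation with at most `n - 2` shared objects gives a subset sum
-/

namespace Pool.Agent.FairDivS

open Finset

/-- coefficient of the object `(0, 0)` -/
noncomputable def wa (n τ : ℕ) (U : ℝ) (i : ℕ) : ℝ :=
  if i = 0 then -(3 * (n : ℝ) - 6) else if i = 2 then -(3 * (n : ℝ) - 4 + τ * U)
  else -(3 * (n : ℝ) - 2)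

/-- coefficient of the object `(1, 0)` -/
noncomputable def wb (i : ℕ) : ℝ := if i ≤ 1 then 0 else -2

/-- coefficient of the object `(i, 0)` -/
noncomputable def wg (τ : ℕ) (U σ : ℝ) (i : ℕ) : ℝ :=
  if i ≤ 1 then 0 else if i = 2 then 1 - 2 * τ * U + σ else 1

theorem w_zero {n τ : ℕ} {U σ : ℝ} {a : ℕ → ℕ} (hn : 3 ≤ n) (i b : Fin n) :
    w n τ U σ a i b 0 = (if b = ⟨0, by omega⟩ then wa n τ U i else 0) +
      ((if b = ⟨1, by omega⟩ then wb i else 0) + (if b = i then wg τ U σ i else 0)) := by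
  obtain ⟨i, hi⟩ := i
  obtain ⟨b, hb⟩ := b
  simp only [w, wa, wb, wg, Fin.mk.injEq, if_true]
  split_ifs <;> first | omega | ring

theorem w_succ {n τ : ℕ} {U σ : ℝ} {a : ℕ → ℕ} (hn : 3 ≤ n) (i b : Fin n) (c : ℕ) :
    w n τ U σ a i b (c + 1) =
      if b = ⟨0, by omega⟩ then (if (i : ℕ) = 2 then -(U * a c) else 0) else 0 := by
  obtain ⟨i, hi⟩ := i
  obtain ⟨b, hb⟩ := b
  simp only [w, Fin.mk.injEq, Nat.add_one_ne_zero, if_false, Nat.add_sub_cancel]
  split_ifs <;> first | omega | rfl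

theorem sum_w {n N τ : ℕ} {U σ : ℝ} {a : ℕ → ℕ} (hn : 3 ≤ n) (i : Fin n)
    (ζ : Fin n × Fin (N + 1) → ℝ) :
    ∑ o : Fin n × Fin (N + 1), w n τ U σ a i o.1 o.2 * ζ o =
      wa n τ U i * ζ (⟨0, by omega⟩, 0) + wb i * ζ (⟨1, by omega⟩, 0) + wg τ U σ i * ζ (i, 0) -
      (if (i : ℕ) = 2 then U * ∑ c : Fin N, (a c : ℝ) * ζ (⟨0, by omega⟩, c.succ) else 0) := by
  rw [Fintype.sum_prod_type]
  have h1 : ∀ b : Fin n, ∑ c : Fin (N + 1), w n τ U σ a i b c * ζ (b, c) =
      (if b = ⟨0, by omega⟩ then wa n τ U i * ζ (⟨0, by omega⟩, 0) else 0) +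
      ((if b = ⟨1, by omega⟩ then wb i * ζ (⟨1, by omega⟩, 0) else 0) +
        (if b = i then wg τ U σ i * ζ (i, 0) else 0)) +
      (if b = ⟨0, by omega⟩ then (if (i : ℕ) = 2 then
        -(U * ∑ c : Fin N, (a c : ℝ) * ζ (⟨0, by omega⟩, c.succ)) else 0) else 0) := by
    intro b
    rw [Fin.sum_univ_succ]
    congr 1
    · rw [Fin.val_zero, w_zero hn]
      by_cases hb0 : b = ⟨0, by omega⟩
      · subst hb0
        by_cases hi0 : (⟨0, by omega⟩ : Fin n) = i
        · subst hi0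
          simp
          ring
        · simp [hi0]
      · by_cases hb1 : b = ⟨1, by omega⟩
        · subst hb1
          by_cases hi1 : (⟨1, by omega⟩ : Fin n) = i
          · subst hi1
            simp
            ring
          · simp [hi1]
        · by_cases hbi : b = i
          · subst hbi
            simp [hb0, hb1]
          · simp [hb0, hb1, hbi]
    · simp_rw [Fin.val_succ, w_succ hn]
      by_cases hb0 : b = ⟨0, by omega⟩
      · subst hb0
        by_cases hi : (i : ℕ) = 2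
        · simp only [hi, if_true]
          rw [mul_sum, ← sum_neg_distrib]
          exact sum_congr rfl fun c _ => by ring
        · simp [hi]
      · simp [hb0]
  rw [sum_congr rfl fun b _ => h1 b]
  simp only [sum_add_distrib, sum_ite_eq', mem_univ, if_true]
  split_ifs <;> ring

theorem abs_le_of_sum_zero {n : ℕ} {t : Fin n → ℝ} {C : ℝ} (h : ∀ i j, t j ≤ t i + C)
    (h0 : ∑ i, t i = 0) (j : Fin n) : |t j| ≤ C := by
  have hn : (0 : ℝ) < n := by exact_mod_cast j.pos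
  rw [abs_le]
  constructor
  · have h1 : ∑ i : Fin n, t i ≤ ∑ _i : Fin n, (t j + C) := sum_le_sum fun i _ => h j i
    rw [h0, sum_const, card_univ, Fintype.card_fin, nsmul_eq_mul] at h1
    have : 0 ≤ t j + C := nonneg_of_mul_nonneg_right h1 hn
    linarith
  · have h1 : ∑ _i : Fin n, t j ≤ ∑ i : Fin n, (t i + C) := sum_le_sum fun i _ => h i j
    rw [sum_add_distrib, h0, sum_const, sum_const, card_univ, Fintype.card_fin, nsmul_eq_mul,
      nsmul_eq_mul, zero_add] at h1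
    exact le_of_mul_le_mul_left h1 hn

open scoped Classical in
theorem frac_sum {N : ℕ} (a : Fin N → ℕ) (ζ : Fin N → ℝ) {ε : ℝ} (hε : 0 ≤ ε)
    (h : ∀ c, ζ c ≤ ε ∨ ζ c = 1) :
    ∑ c, (a c : ℝ) * ζ c ≤ ∑ c ∈ univ.filter (fun c => ζ c = 1), (a c : ℝ) + ε * ∑ c, (a c : ℝ) := by
  rw [sum_filter, mul_sum, ← sum_add_distrib]
  refine sum_le_sum fun c _ => ?_
  have ha : (0 : ℝ) ≤ a c := Nat.cast_nonneg _
  split_ifs with h1
  · rw [h1]
    nlinarith [mul_nonneg hε ha]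
  · rcases h c with h2 | h2
    · nlinarith
    · exact absurd h2 h1

theorem val_bd {O : Type} [Fintype O] {M g : ℝ} {v w' ζ : O → ℝ}
    (hv : ∀ o, |v o - (M + w' o)| ≤ g) (h0 : ∀ o, 0 ≤ ζ o) :
    (M - g) * ∑ o, ζ o + ∑ o, w' o * ζ o ≤ ∑ o, v o * ζ o ∧
      ∑ o, v o * ζ o ≤ (M + g) * ∑ o, ζ o + ∑ o, w' o * ζ o := by
  rw [mul_sum, mul_sum, ← sum_add_distrib, ← sum_add_distrib]
  constructor
  · refine sum_le_sum fun o _ => ?_
    have h := (abs_le.1 (hv o)).1
    nlinarith [h0 o]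
  · refine sum_le_sum fun o _ => ?_
    have h := (abs_le.1 (hv o)).2
    nlinarith [h0 o]

/-- the consequences of envy-freeness for the masses -/
theorem env {n N : ℕ} {M g : ℝ} (hg : 0 ≤ g) {v w' : Fin n → Fin n × Fin (N + 1) → ℝ}
    (hv : ∀ i o, |v i o - (M + w' i o)| ≤ g)
    {z : Fin n → Fin n × Fin (N + 1) → ℝ} (h0 : ∀ i o, 0 ≤ z i o) (h1 : ∀ o, ∑ i, z i o = 1)
    (hEF : ∀ i j, ∑ o, v i o * z j o ≤ ∑ o, v i o * z i o) (i j : Fin n) :
    M * (∑ o, z j o - (N + 1)) + ∑ o, w' i o * z j o ≤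
      M * (∑ o, z i o - (N + 1)) + ∑ o, w' i o * z i o + n * (N + 1) * g := by
  have hsum : ∑ j, ∑ o, z j o = n * (N + 1) := by
    rw [sum_comm, sum_congr rfl fun o _ => h1 o, sum_const, card_univ, Fintype.card_prod,
      Fintype.card_fin, Fintype.card_fin, nsmul_eq_mul, mul_one]
    push_cast
    ring
  have hy0 : ∀ j, 0 ≤ ∑ o, z j o := fun j => sum_nonneg fun o _ => h0 j o
  by_cases hij : i = j
  · subst hij
    have : 0 ≤ (n : ℝ) * (N + 1) * g := by positivity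
    linarith
  · have a1 := (val_bd (hv i) (h0 j)).1
    have a2 := (val_bd (hv i) (h0 i)).2
    have a3 := hEF i j
    have a4 : ∑ o, z i o + ∑ o, z j o ≤ n * (N + 1) := by
      rw [← hsum, ← sum_pair (f := fun j => ∑ o, z j o) hij]
      exact sum_le_sum_of_subset_of_nonneg (subset_univ _) fun k _ _ => hy0 k
    have a5 := mul_le_mul_of_nonneg_right a4 hg
    linarith

theorem mass_sum {n N : ℕ} (M : ℝ) {z : Fin n → Fin n × Fin (N + 1) → ℝ}
    (h1 : ∀ o, ∑ i, z i o = 1) : ∑ j, M * (∑ o, z j o - (N + 1)) = 0 := by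
  have hsum : ∑ j, ∑ o, z j o = n * (N + 1) := by
    rw [sum_comm, sum_congr rfl fun o _ => h1 o, sum_const, card_univ, Fintype.card_prod,
      Fintype.card_fin, Fintype.card_fin, nsmul_eq_mul, mul_one]
    push_cast
    ring
  rw [← mul_sum, sum_sub_distrib, hsum, sum_const, card_univ, Fintype.card_fin, nsmul_eq_mul]
  ring

/-- the last step -/
theorem final_step {n : ℕ} (hn : 3 ≤ n) {r s p : Fin n} (hrs : r ≠ s) (hrp : r ≠ p) (hsp : s ≠ p)
    {t : Fin n → ℝ} (ht : ∑ i, t i = 0) (hts : 0 ≤ t s) {U σ δ G as ar cpp τ : ℝ}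
    (hδ : 0 ≤ δ) (hG0 : 0 ≤ G) (hG : G = 1 - 2 * τ * U + σ) (hcpp : cpp ≤ 1)
    (e1 : t s ≤ t r - (3 * n - 6) + δ)
    (e2 : t s - 2 - U * as ≤ t p + G * cpp + δ)
    (e3 : t r - (3 * n - 4 + τ * U) - U * ar ≤ t p + G * cpp + δ)
    (e4 : ∀ i, i ≠ r → i ≠ s → i ≠ p → t s - 3 ≤ t i + δ) :
    2 * τ * U ≤ U * as + σ + n * δ ∧ τ * U ≤ U * ar + σ + n * δ := by
  have hpP : p ∈ (univ.erase r).erase s := mem_erase.2 ⟨hsp.symm, mem_erase.2 ⟨hrp.symm, mem_univ p⟩⟩
  have f1 := sum_split hrs t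
  rw [← add_sum_erase _ t hpP, ht] at f1
  have hcard : ((((univ.erase r).erase s).erase p).card : ℝ) = (n : ℝ) - 3 := by
    have h1 := card_split (r := r) (s := s) hrs (by omega)
    have h2 : (((univ.erase r).erase s).erase p).card + 1 = ((univ.erase r).erase s).card :=
      card_erase_add_one hpP
    have h3 : ((((univ.erase r).erase s).erase p).card : ℝ) + 1 =
        (((univ.erase r).erase s).card : ℝ) := by exact_mod_cast h2
    linarith
  have f2 : ∑ _i ∈ ((univ.erase r).erase s).erase p, (t s - 3) ≤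
      ∑ i ∈ ((univ.erase r).erase s).erase p, (t i + δ) := by
    refine sum_le_sum fun i hi => ?_
    rw [mem_erase, mem_erase, mem_erase] at hi
    exact e4 i hi.2.2.1 hi.2.1 hi.1
  rw [sum_add_distrib, sum_const, sum_const, nsmul_eq_mul, nsmul_eq_mul, hcard] at f2
  have f3 : G * cpp ≤ G := by nlinarith
  have hnR : (3 : ℝ) ≤ n := by exact_mod_cast hn
  have f4 : 0 ≤ (n : ℝ) * t s := mul_nonneg (by linarith) hts
  have f5 : 0 ≤ (n : ℝ) * δ := mul_nonneg (by linarith) hδ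
  constructor <;> nlinarith

open scoped Classical in
/-- **Soundness.** -/
theorem core_no {n N τ : ℕ} (hn : 3 ≤ n) {U σ g M : ℝ} (hP : Par n N τ U σ g M)
    (a : ℕ → ℕ) (ha : ∑ c ∈ Finset.range N, a c = 3 * τ)
    (v : Fin n → Fin n × Fin (N + 1) → ℝ)
    (hv : ∀ i o, |v i o - (M + w n τ U σ a i o.1 o.2)| ≤ g)
    (z : Fin n → Fin n × Fin (N + 1) → ℝ) (h0 : ∀ i o, 0 ≤ z i o) (h1 : ∀ o, ∑ i, z i o = 1)
    (hEF : ∀ i j, ∑ o, v i o * z j o ≤ ∑ o, v i o * z i o)
    (hs : (Finset.univ.filter fun o => ∃ i, 0 < z i o ∧ z i o < 1).card ≤ n - 2) :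
    ∃ S ⊆ Finset.range N, ∑ c ∈ S, a c = τ := by
  have hnR : (3 : ℝ) ≤ n := by exact_mod_cast hn
  obtain ⟨hU, hσ, hg, hp1, hp2, hp3⟩ := hP
  set δ : ℝ := n * (N + 1) * g with hδ
  have hδ0 : 0 ≤ δ := by positivity
  have hσ0 : 0 < σ := by rw [hσ]; linarith
  have hnδ : 4 * (n * δ) ≤ σ := by rw [hδ]; linarith
  have hδσ : 12 * δ ≤ σ := by nlinarith
  have hτ0 : (0 : ℝ) ≤ τ := Nat.cast_nonneg τ
  have hτU : 0 ≤ (τ : ℝ) * U := mul_nonneg hτ0 hU.le
  have hsm : 120 * (6 * τ * U + 2 * σ) ≤ 1 := by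
    have : 0 ≤ 6 * (τ : ℝ) * U + 2 * σ := by nlinarith
    nlinarith
  have hM1 : (τ + 1) * (100 * ((n : ℝ) ^ 2 * (3 * n + 4))) ≤ M := by linarith
  have hn2 : (9 : ℝ) ≤ n ^ 2 := by nlinarith
  have hM0 : 0 < M := lt_of_lt_of_le (by positivity) hp3
  set ε : ℝ := (3 * n + 4) / M with hε
  have hε0 : 0 ≤ ε := by positivity
  have hMε : M * ε = 3 * n + 4 := by rw [hε]; field_simp
  have hε1 : (τ + 1) * (100 * (n : ℝ) ^ 2) * ε ≤ 1 := by
    have h2 : (τ + 1) * (100 * (n : ℝ) ^ 2) * (3 * n + 4) ≤ M := by linarith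
    rw [hε, ← mul_div_assoc, div_le_one hM0]
    exact h2
  have hε2 : 100 * (n : ℝ) ^ 2 * ε ≤ 1 := by
    have : 0 ≤ (τ : ℝ) * (100 * (n : ℝ) ^ 2) * ε := by positivity
    linarith
  have hε3 : 900 * (τ * ε) ≤ 1 := by
    have h2 : 0 ≤ (τ : ℝ) * ε := by positivity
    have h3 : 9 * (τ * ε) ≤ (n : ℝ) ^ 2 * (τ * ε) := mul_le_mul_of_nonneg_right hn2 h2
    have : 0 ≤ 100 * (n : ℝ) ^ 2 * ε := by positivity
    linarith
  let r : Fin n := ⟨0, by omega⟩
  let s : Fin n := ⟨1, by omega⟩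
  let p : Fin n := ⟨2, by omega⟩
  have hrs : r ≠ s := by simp [r, s]
  have hrp : r ≠ p := by simp [r, p]
  have hsp : s ≠ p := by simp [s, p]
  set t : Fin n → ℝ := fun j => M * (∑ o, z j o - (N + 1)) with ht
  set x : Fin n → ℝ := fun j => z j (r, 0) with hx
  set b : Fin n → ℝ := fun j => z j (s, 0) with hb
  set c : Fin n → Fin n → ℝ := fun i j => z j (i, 0) with hc
  set A : Fin n → ℝ := fun j => ∑ c : Fin N, (a c : ℝ) * z j (r, c.succ) with hA
  have ht0 : ∑ j, t j = 0 := mass_sum M h1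
  have hz1 : ∀ i o, z i o ≤ 1 := fun i o => single_le (fun j => h0 j o) (h1 o) i
  have haR : ∑ c : Fin N, (a c : ℝ) = 3 * τ := by
    rw [← Finset.sum_range (fun c => (a c : ℝ))]
    exact_mod_cast ha
  have hA0 : ∀ j, 0 ≤ A j := fun j => sum_nonneg fun c _ => mul_nonneg (Nat.cast_nonneg _) (h0 _ _)
  have hA1 : ∀ j, A j ≤ 3 * τ := fun j => by
    rw [← haR]
    exact sum_le_sum fun c _ => mul_le_of_le_one_right (Nat.cast_nonneg _) (hz1 _ _)
  have hUA0 : ∀ j, 0 ≤ U * A j := fun j => mul_nonneg hU.le (hA0 j)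
  have hUA1 : ∀ j, U * A j ≤ 3 * (τ * U) := fun j => by
    have := mul_le_mul_of_nonneg_left (hA1 j) hU.le
    linarith
  have hx0 : ∀ j, 0 ≤ x j := fun j => h0 _ _
  have hb0 : ∀ j, 0 ≤ b j := fun j => h0 _ _
  have hc0 : ∀ i j, 0 ≤ c i j := fun i j => h0 _ _
  have hx1' : ∀ j, x j ≤ 1 := fun j => hz1 _ _
  have hb1' : ∀ j, b j ≤ 1 := fun j => hz1 _ _
  have hc1 : ∀ i j, c i j ≤ 1 := fun i j => hz1 _ _
  have E : ∀ i j : Fin n, t j + (wa n τ U i * x j + wb i * b j + wg τ U σ i * c i j -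
      (if (i : ℕ) = 2 then U * A j else 0)) ≤
      t i + (wa n τ U i * x i + wb i * b i + wg τ U σ i * c i i -
      (if (i : ℕ) = 2 then U * A i else 0)) + δ := by
    intro i j
    have h := env hg hv h0 h1 hEF i j
    rw [sum_w hn i (z j), sum_w hn i (z i)] at h
    exact h
  have Er : ∀ j, t j - (3 * n - 6) * x j ≤ t r - (3 * n - 6) * x r + δ := by
    intro j
    have h := E r j
    simp only [wa, wb, wg, r, if_true, if_false, zero_mul, Nat.zero_le, (by norm_num : (0 : ℕ) ≠ 2)]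
      at h
    linarith
  have Es : ∀ j, t j - (3 * n - 2) * x j ≤ t s - (3 * n - 2) * x s + δ := by
    intro j
    have h := E s j
    simp only [wa, wb, wg, s, if_true, if_false, zero_mul, le_refl, (by norm_num : (1 : ℕ) ≠ 2),
      (by norm_num : (1 : ℕ) ≠ 0)] at h
    linarith
  have Ep : ∀ j, t j - (3 * n - 4 + τ * U) * x j - 2 * b j + (1 - 2 * τ * U + σ) * c p j - U * A j ≤
      t p - (3 * n - 4 + τ * U) * x p - 2 * b p + (1 - 2 * τ * U + σ) * c p p - U * A p + δ := by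
    intro j
    have h := E p j
    simp only [wa, wb, wg, p, if_true, if_false, (by norm_num : ¬ (2 : ℕ) ≤ 1),
      (by norm_num : (2 : ℕ) ≠ 0)] at h
    linarith
  have Ee : ∀ i, i ≠ r → i ≠ s → i ≠ p → ∀ j, t j - (3 * n - 2) * x j - 2 * b j + c i j ≤
      t i - (3 * n - 2) * x i - 2 * b i + c i i + δ := by
    intro i h1 h2 h3 j
    have h := E i j
    have g1 : (i : ℕ) ≠ 0 := fun h => h1 (Fin.ext h)
    have g2 : (i : ℕ) ≠ 1 := fun h => h2 (Fin.ext h)
    have g3 : (i : ℕ) ≠ 2 := fun h => h3 (Fin.ext h)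
    have g4 : ¬ (i : ℕ) ≤ 1 := by omega
    simp only [wa, wb, wg, g1, g3, g4, if_false] at h
    linarith
  -- the masses are almost equal
  have hx0' : ∀ j, (3 * n - 4 + τ * U) * x j ≤ 3 * n - 4 + τ * U := fun j =>
    mul_le_of_le_one_right (by linarith) (hx1' j)
  have hx0'' : ∀ j, 0 ≤ (3 * n - 4 + τ * U) * x j := fun j => mul_nonneg (by linarith) (hx0 j)
  have hG0 : 0 ≤ 1 - 2 * τ * U + σ := by linarith
  have hGc : ∀ i j, 0 ≤ (1 - 2 * τ * U + σ) * c i j := fun i j => mul_nonneg hG0 (hc0 i j)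
  have hGc1 : ∀ i j, (1 - 2 * τ * U + σ) * c i j ≤ 1 - 2 * τ * U + σ := fun i j =>
    mul_le_of_le_one_right hG0 (hc1 i j)
  have hBx : ∀ j, (3 * (n : ℝ) - 2) * x j ≤ 3 * n - 2 := fun j =>
    mul_le_of_le_one_right (by linarith) (hx1' j)
  have hBx0 : ∀ j, 0 ≤ (3 * (n : ℝ) - 2) * x j := fun j => mul_nonneg (by linarith) (hx0 j)
  have hAx : ∀ j, (3 * (n : ℝ) - 6) * x j ≤ 3 * n - 6 := fun j =>
    mul_le_of_le_one_right (by linarith) (hx1' j)
  have hAx0 : ∀ j, 0 ≤ (3 * (n : ℝ) - 6) * x j := fun j => mul_nonneg (by linarith) (hx0 j)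
  have hbd : ∀ i j, t j ≤ t i + (3 * n + 4) := by
    intro i j
    have hb2 := hb1' j
    have hb3 := hb0 j
    have hb4 := hb0 i
    have hb5 := hb1' i
    by_cases i1 : i = r
    · subst i1
      linarith [Er j, hAx j, hAx0 j, hAx r, hAx0 r]
    · by_cases i2 : i = s
      · subst i2
        linarith [Es j, hBx j, hBx0 j, hBx s, hBx0 s]
      · by_cases i3 : i = p
        · subst i3
          linarith [Ep j, hx0' j, hx0'' p, hGc p j, hGc1 p p, hUA1 j, hUA0 p]
        · linarith [Ee i i1 i2 i3 j, hBx j, hBx0 i, hc1 i i, hc0 i j]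
  have habs := fun j => abs_le_of_sum_zero hbd ht0 j
  have hy : ∀ i, |∑ o, z i o - ((N + 1 : ℕ) : ℝ)| ≤ ε := by
    intro i
    have h := habs i
    rw [ht] at h
    simp only [abs_mul, abs_of_pos hM0] at h
    rw [hε, le_div_iff₀ hM0]
    push_cast
    linarith
  have hnε : 4 * n * ε < 1 := by
    have h2 : 3 * ((n : ℝ) * ε) ≤ n * (n * ε) :=
      mul_le_mul_of_nonneg_right hnR (by positivity)
    have h3 : 0 ≤ (n : ℝ) * ε := by positivity
    nlinarith
  obtain ⟨Out, hO, hOut⟩ := count (k := N + 1) (by omega) hnε z h0 h1 hs hy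
  have hOt : ∀ i ∈ Out, 0 ≤ t i := by
    intro i hi
    have h := (hOut i hi).1
    push_cast at h
    exact mul_nonneg hM0.le (by linarith)
  set η : ℝ := δ + 6 * (τ * U) + σ with hη
  have hη0 : 0 ≤ η := by positivity
  have hη1 : 20 * (n * η) ≤ 1 := by
    have h3 : η ≤ 6 * τ * U + 2 * σ := by linarith
    have h4 : (n : ℝ) * η ≤ n * (6 * τ * U + 2 * σ) := mul_le_mul_of_nonneg_left h3 (by linarith)
    linarith [mul_nonneg (by linarith : (0 : ℝ) ≤ n) hη0]
  have hε4 : 20 * ((n : ℝ) * (3 * n) * ε) ≤ 1 := by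
    have : 0 ≤ (n : ℝ) ^ 2 * ε := by positivity
    nlinarith
  obtain ⟨hsO, hrO, hxr, hbs⟩ := lin hn p hrs hrp hsp t x b c
    (fun i => if i = p then 3 * n - 4 else 3 * n - 2) (by simp) (fun i hi => by simp [hi])
    hx0 (h1 _) hb0 (h1 _) hc0 hc1 ht0 hη0 hε0 hη1 hε4
    (fun j => by linarith [Er j]) (fun j => by linarith [Es j])
    (fun i i1 i2 j => by
      by_cases i3 : i = p
      · subst i3
        simp only [if_true]
        have k1 := mul_le_of_le_one_right hτU (hx1' j)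
        have k2 := mul_nonneg hτU (hx0 p)
        have k3 := mul_le_of_le_one_right hτU (hc1 p j)
        have k4 := mul_nonneg hτU (hc0 p p)
        have k5 := mul_nonneg hσ0.le (hc0 p j)
        have k6 := mul_le_of_le_one_right hσ0.le (hc1 p p)
        linarith [Ep j, hUA1 j, hUA0 p]
      · simp only [i3, if_false]
        linarith [Ee i i1 i2 i3 j])
    Out hO hOt (fun i hi => (hOut i hi).2 _) (fun i hi => (hOut i hi).2 _)
  -- the third level
  have hxj : ∀ j, j ≠ r → x j = 0 := fun j hj => by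
    have h2 := pair_le hx0 (h1 (r, 0)) hj
    rw [hxr] at h2
    exact le_antisymm (by linarith) (hx0 j)
  have hbj : ∀ j, j ≠ s → b j = 0 := fun j hj => by
    have h2 := pair_le hb0 (h1 (s, 0)) hj
    rw [hbs] at h2
    exact le_antisymm (by linarith) (hb0 j)
  have hfin := final_step hn hrs hrp hsp ht0 (hOt s hsO) (U := U) (σ := σ) (δ := δ)
    (G := 1 - 2 * τ * U + σ) (as := A s) (ar := A r) (cpp := c p p) (τ := τ) hδ0 hG0 rfl (hc1 p p)
    (by
      have h2 := Er s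
      rw [hxr, hxj s hrs.symm] at h2
      linarith)
    (by
      have h2 := Ep s
      rw [hxj s hrs.symm, hxj p hrp.symm, hbs, hbj p hsp.symm] at h2
      linarith [hGc p s, hUA0 p])
    (by
      have h2 := Ep r
      rw [hxr, hxj p hrp.symm, hbj r hrs, hbj p hsp.symm] at h2
      linarith [hGc p r, hUA0 p])
    (fun i i1 i2 i3 => by
      have h2 := Ee i i1 i2 i3 s
      rw [hxj s hrs.symm, hxj i i1, hbs, hbj i i2] at h2
      linarith [hc0 i s, hc1 i i])
  have hfr : ∀ j ∈ Out, A j ≤ ∑ c ∈ univ.filter (fun c : Fin N => z j (r, c.succ) = 1), (a c : ℝ) +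
      ε * (3 * τ) := fun j hj => by
    rw [← haR]
    exact frac_sum (fun c : Fin N => a c) (fun c => z j (r, c.succ)) hε0
      (fun c => (hOut j hj).2 _)
  have hτε : ε * (3 * τ) ≤ 1 / 8 := by linarith
  have hS1 : 2 * τ ≤ ∑ c ∈ univ.filter (fun c : Fin N => z s (r, c.succ) = 1), a c := by
    have h2 := hfr s hsO
    have h3 := hfin.1
    have h4 : U * A s ≤ U * (∑ c ∈ univ.filter (fun c : Fin N => z s (r, c.succ) = 1), (a c : ℝ) +
        ε * (3 * τ)) := mul_le_mul_of_nonneg_left h2 hU.le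
    have h5 : U * (ε * (3 * τ)) ≤ U * (1 / 8) := mul_le_mul_of_nonneg_left hτε hU.le
    have h6 : U * (2 * τ) < U * (∑ c ∈ univ.filter (fun c : Fin N => z s (r, c.succ) = 1),
        (a c : ℝ) + 1) := by nlinarith
    have h7 := lt_of_mul_lt_mul_left h6 hU.le
    have h8 : 2 * τ < ∑ c ∈ univ.filter (fun c : Fin N => z s (r, c.succ) = 1), a c + 1 := by
      exact_mod_cast h7
    omega
  have hS2 : τ ≤ ∑ c ∈ univ.filter (fun c : Fin N => z r (r, c.succ) = 1), a c := by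
    have h2 := hfr r hrO
    have h3 := hfin.2
    have h4 : U * A r ≤ U * (∑ c ∈ univ.filter (fun c : Fin N => z r (r, c.succ) = 1), (a c : ℝ) +
        ε * (3 * τ)) := mul_le_mul_of_nonneg_left h2 hU.le
    have h5 : U * (ε * (3 * τ)) ≤ U * (1 / 8) := mul_le_mul_of_nonneg_left hτε hU.le
    have h6 : U * τ < U * (∑ c ∈ univ.filter (fun c : Fin N => z r (r, c.succ) = 1),
        (a c : ℝ) + 1) := by nlinarith
    have h7 := lt_of_mul_lt_mul_left h6 hU.le
    have h8 : τ < ∑ c ∈ univ.filter (fun c : Fin N => z r (r, c.succ) = 1), a c + 1 := by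
      exact_mod_cast h7
    omega
  have hdisj : Disjoint (univ.filter (fun c : Fin N => z s (r, c.succ) = 1))
      (univ.filter (fun c : Fin N => z r (r, c.succ) = 1)) := by
    rw [disjoint_left]
    intro c hc1 hc2
    rw [mem_filter] at hc1 hc2
    have h2 := pair_le (fun j => h0 j (r, c.succ)) (h1 (r, c.succ)) hrs
    rw [hc1.2, hc2.2] at h2
    linarith
  have haN : ∑ c : Fin N, a c = 3 * τ := by
    rw [← Finset.sum_range (fun c => a c)]
    exact ha
  have htot : ∑ c ∈ univ.filter (fun c : Fin N => z s (r, c.succ) = 1), a c +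
      ∑ c ∈ univ.filter (fun c : Fin N => z r (r, c.succ) = 1), a c ≤ 3 * τ := by
    rw [← sum_union hdisj, ← haN]
    exact sum_le_sum_of_subset (subset_univ _)
  refine ⟨(univ.filter (fun c : Fin N => z r (r, c.succ) = 1)).map Fin.valEmbedding, ?_, ?_⟩
  · intro c hc
    rw [mem_map] at hc
    obtain ⟨c', -, rfl⟩ := hc
    exact mem_range.2 c'.2
  · rw [sum_map]
    change ∑ c ∈ univ.filter (fun c : Fin N => z r (r, c.succ) = 1), a c = τ
    omega

end Pool.Agent.FairDivS
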