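import Pool.Agent.Lib_MP_42f051_lc_s.SDefs

/-!
# Completeness: a subset with the sum `τ` gives a robust envy-free allocation

The block `b ≥ 2` goes to the agent `b`, the objects `(0, c)`, `(1, c)` are divided between the agents
`0` and `1`, and every payer gives a part of one object to the agent `0`.
-/

namespace Pool.Agent.FairDivS

open Finset

/-- the payment of the payer `b` -/
noncomputable def pay (n : ℕ) (s : ℝ) (b : ℕ) : ℝ := if b = 2 then 3 + ((n : ℝ) - 2) * s else 3 - s

/-- the main owner of the object `(b, c)` -/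
def own (S : Finset ℕ) (b c : ℕ) : ℕ :=
  if b = 0 then (if c = 0 then 0 else if c - 1 ∈ S then 0 else 1)
  else if b = 1 then (if c = 0 then 1 else if c - 1 ∈ S then 1 else 0)
  else b

/-- the allocation -/
noncomputable def al (S : Finset ℕ) (φ : ℕ → ℝ) (i b c : ℕ) : ℝ :=
  (if i = own S b c then 1 else 0) +
    (if 2 ≤ b ∧ c = 1 then (if i = 0 then φ b else if i = b then -φ b else 0) else 0)

/-- the loss of the agent `i` for the object `(0, 0)` -/
noncomputable def cA (n τ : ℕ) (U : ℝ) (i : ℕ) : ℝ :=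
  if i = 0 then 3 * (n : ℝ) - 6 else if i = 2 then 3 * (n : ℝ) - 4 + τ * U else 3 * (n : ℝ) - 2

/-- the deviation of the value of a bundle -/
theorem wsum {n N τ : ℕ} (hn : 2 ≤ n) (U σ : ℝ) (a : ℕ → ℕ) {i : ℕ} (hi : i < n) (z : ℕ → ℕ → ℝ) :
    ∑ b ∈ range n, ∑ c ∈ range (N + 1), w n τ U σ a i b c * z b c =
      -(cA n τ U i * z 0 0) + (if i ≤ 1 then 0 else -2 * z 1 0) +
      (if 2 ≤ i then (if i = 2 then 1 - 2 * τ * U + σ else 1) * z i 0 else 0) -
      (if i = 2 then U * ∑ c ∈ range N, (a c : ℝ) * z 0 (c + 1) else 0) := by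
  obtain ⟨q, rfl⟩ := Nat.exists_eq_add_of_le' hn
  have hc : ∀ b, ∑ c ∈ range (N + 1), w (q + 2) τ U σ a i b c * z b c =
      (if b = 0 ∧ i = 2 then -(U * ∑ c ∈ range N, (a c : ℝ) * z 0 (c + 1)) else 0) +
        w (q + 2) τ U σ a i b 0 * z b 0 := by
    intro b
    rw [sum_range_succ']
    congr 1
    split_ifs with h
    · rw [mul_sum, ← sum_neg_distrib]
      refine sum_congr rfl fun c _ => ?_
      unfold w
      rw [if_neg (Nat.succ_ne_zero c), if_pos h, h.1, Nat.add_sub_cancel]
      ring
    · refine sum_eq_zero fun c _ => ?_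
      unfold w
      rw [if_neg (Nat.succ_ne_zero c), if_neg h, zero_mul]
  simp_rw [hc]
  rw [sum_add_distrib, sum_range_succ', sum_range_succ', sum_range_succ', sum_range_succ']
  have e1 : ∀ b, w (q + 2) τ U σ a i (b + 1 + 1) 0 =
      if b + 2 = i then (if i = 2 then 1 - 2 * τ * U + σ else 1) else 0 := by
    intro b
    unfold w
    rw [if_pos rfl, if_neg (by omega), if_neg (by omega)]
  have e2 : w (q + 2) τ U σ a i (0 + 1) 0 = if i ≤ 1 then 0 else -2 := by
    unfold w
    rw [if_pos rfl, if_neg (by omega), if_pos (by omega)]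
  have e3 : w (q + 2) τ U σ a i 0 0 = -cA (q + 2) τ U i := by
    unfold w cA
    rw [if_pos rfl, if_pos rfl]
    split_ifs <;> rfl
  have e4 : ∑ b ∈ range q, w (q + 2) τ U σ a i (b + 1 + 1) 0 * z (b + 1 + 1) 0 =
      if 2 ≤ i then (if i = 2 then 1 - 2 * τ * U + σ else 1) * z i 0 else 0 := by
    simp_rw [e1]
    by_cases h : 2 ≤ i
    · obtain ⟨p, rfl⟩ := Nat.exists_eq_add_of_le' h
      rw [if_pos h, sum_eq_single p]
      · rw [if_pos rfl]
      · intro b _ hb
        rw [if_neg (by omega), zero_mul]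
      · intro hp
        exact absurd (mem_range.2 (by omega)) hp
    · rw [if_neg h]
      refine sum_eq_zero fun b _ => ?_
      rw [if_neg (by omega), zero_mul]
  have e5 : ∑ b ∈ range q, (if b + 1 + 1 = 0 ∧ i = 2 then
      -(U * ∑ c ∈ range N, (a c : ℝ) * z 0 (c + 1)) else 0) = 0 :=
    sum_eq_zero fun b _ => if_neg (by omega)
  rw [e5, e4, e2, e3]
  simp only [zero_add, one_ne_zero, false_and, if_false, true_and]
  split_ifs <;> ring

/-- the size of a bundle -/
theorem alsum {n N : ℕ} (hn : 2 ≤ n) (hN : 1 ≤ N) (S : Finset ℕ) (φ : ℕ → ℝ) {j : ℕ} (hj : j < n) :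
    ∑ b ∈ range n, ∑ c ∈ range (N + 1), al S φ j b c =
      N + 1 + (if j = 0 then ∑ b ∈ range (n - 2), φ (b + 2) else if 2 ≤ j then -φ j else 0) := by
  obtain ⟨q, rfl⟩ := Nat.exists_eq_add_of_le' hn
  unfold al
  simp_rw [sum_add_distrib]
  congr 1
  · rw [sum_range_succ', sum_range_succ']
    have e1 : ∑ b ∈ range q, ∑ c ∈ range (N + 1), (if j = own S (b + 1 + 1) c then (1 : ℝ) else 0) =
        if 2 ≤ j then (N : ℝ) + 1 else 0 := by
      have e2 : ∀ b c, own S (b + 1 + 1) c = b + 2 := fun b c => by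
        unfold own
        rw [if_neg (by omega), if_neg (by omega)]
      simp_rw [e2]
      by_cases h : 2 ≤ j
      · obtain ⟨p, rfl⟩ := Nat.exists_eq_add_of_le' h
        rw [if_pos h, sum_eq_single p]
        · simp
        · intro b _ hb
          exact sum_eq_zero fun c _ => if_neg (by omega)
        · intro hp
          exact absurd (mem_range.2 (by omega)) hp
      · rw [if_neg h]
        exact sum_eq_zero fun b _ => sum_eq_zero fun c _ => if_neg (by omega)
    rw [e1, sum_range_succ', sum_range_succ' (fun c => if j = own S 0 c then (1 : ℝ) else 0)]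
    have e3 : ∀ c, (if j = own S (0 + 1) (c + 1) then (1 : ℝ) else 0) +
        (if j = own S 0 (c + 1) then (1 : ℝ) else 0) = if j ≤ 1 then 1 else 0 := by
      intro c
      unfold own
      simp only [zero_add, one_ne_zero, if_false, if_true, Nat.add_sub_cancel, Nat.succ_ne_zero]
      by_cases h : c ∈ S
      · simp only [h, if_true]
        rcases Nat.lt_or_ge j 2 with h2 | h2
        · interval_cases j <;> simp
        · rw [if_neg (by omega), if_neg (by omega), if_neg (by omega)]
          simp
      · simp only [h, if_false]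
        rcases Nat.lt_or_ge j 2 with h2 | h2
        · interval_cases j <;> simp
        · rw [if_neg (by omega), if_neg (by omega), if_neg (by omega)]
          simp
    have e4 : ∑ c ∈ range N, (if j = own S (0 + 1) (c + 1) then (1 : ℝ) else 0) +
        ∑ c ∈ range N, (if j = own S 0 (c + 1) then (1 : ℝ) else 0) = if j ≤ 1 then (N : ℝ) else 0 := by
      rw [← sum_add_distrib]
      simp_rw [e3]
      split_ifs <;> simp
    have e5 : own S (0 + 1) 0 = 1 := by simp [own]
    have e6 : own S 0 0 = 0 := by simp [own]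
    rw [e5, e6]
    have e7 : (if j = 1 then (1 : ℝ) else 0) + (if j = 0 then (1 : ℝ) else 0) =
        if j ≤ 1 then 1 else 0 := by
      rcases Nat.lt_or_ge j 2 with h2 | h2
      · interval_cases j <;> simp
      · rw [if_neg (by omega), if_neg (by omega), if_neg (by omega)]
        simp
    rcases Nat.lt_or_ge j 2 with h2 | h2
    · rw [if_neg (show ¬ 2 ≤ j by omega)]
      rw [if_pos (show j ≤ 1 by omega)] at e4 e7
      linarith
    · rw [if_pos h2]
      rw [if_neg (show ¬ j ≤ 1 by omega)] at e4 e7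
      linarith
  · have e1 : ∀ b, ∑ c ∈ range (N + 1), (if 2 ≤ b ∧ c = 1 then
        (if j = 0 then φ b else if j = b then -φ b else 0) else (0 : ℝ)) =
        if 2 ≤ b then (if j = 0 then φ b else if j = b then -φ b else 0) else 0 := by
      intro b
      by_cases h : 2 ≤ b
      · rw [if_pos h, sum_eq_single 1]
        · rw [if_pos ⟨h, rfl⟩]
        · intro c _ hc
          exact if_neg fun h1 => hc h1.2
        · intro h1
          exact absurd (mem_range.2 (by omega)) h1
      · rw [if_neg h]
        exact sum_eq_zero fun c _ => if_neg fun h1 => h h1.1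
    simp_rw [e1]
    rw [sum_range_succ', sum_range_succ', Nat.add_sub_cancel]
    have e2 : ∀ b, 2 ≤ b + 1 + 1 := fun b => by omega
    have e3 : ¬ 2 ≤ 0 + 1 := by omega
    have e4 : ¬ 2 ≤ 0 := by omega
    simp only [e2, e3, e4, if_true, if_false, add_zero]
    by_cases h0 : j = 0
    · simp only [h0, if_true]
    · simp only [h0, if_false]
      by_cases h : 2 ≤ j
      · obtain ⟨p, rfl⟩ := Nat.exists_eq_add_of_le' h
        rw [if_pos h, sum_eq_single p]
        · rw [if_pos rfl]
        · intro b _ hb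
          exact if_neg (by omega)
        · intro hp
          exact absurd (mem_range.2 (by omega)) hp
      · rw [if_neg h]
        exact sum_eq_zero fun b _ => if_neg (by omega)

theorem al_zero {S : Finset ℕ} {φ : ℕ → ℝ} {j b : ℕ} : al S φ j b 0 = if j = b then 1 else 0 := by
  have h1 : own S b 0 = b := by
    unfold own
    rw [if_pos rfl, if_pos rfl]
    split_ifs with h1 h2
    · exact h1.symm
    · exact h2.symm
    · rfl
  unfold al
  rw [h1, if_neg (fun h => by omega : ¬ (2 ≤ b ∧ 0 = 1)), add_zero]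

theorem al_num {S : Finset ℕ} {φ : ℕ → ℝ} {j N τ : ℕ} (a : ℕ → ℕ) (hS : S ⊆ range N)
    (ha : ∑ c ∈ range N, a c = 3 * τ) (hSτ : ∑ c ∈ S, a c = τ) :
    ∑ c ∈ range N, (a c : ℝ) * al S φ j 0 (c + 1) =
      if j = 0 then (τ : ℝ) else if j = 1 then 2 * τ else 0 := by
  have h1 : ∑ c ∈ range N \ S, a c = 2 * τ := by
    have := sum_sdiff (f := a) hS
    omega
  have h2 : ∀ c, al S φ j 0 (c + 1) = if c ∈ S then (if j = 0 then 1 else 0) else
      (if j = 1 then 1 else 0) := by
    intro c
    unfold al own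
    rw [if_neg (fun h => by omega : ¬ (2 ≤ 0 ∧ c + 1 = 1)), add_zero, if_pos rfl,
      if_neg (Nat.succ_ne_zero c), Nat.add_sub_cancel]
    split_ifs <;> simp_all
  simp_rw [h2]
  rw [← sum_sdiff hS]
  have h3 : ∑ c ∈ range N \ S, (a c : ℝ) * (if c ∈ S then (if j = 0 then 1 else 0) else
      (if j = 1 then 1 else 0)) = 2 * τ * (if j = 1 then 1 else 0) := by
    have h4 : ((∑ c ∈ range N \ S, a c : ℕ) : ℝ) = ((2 * τ : ℕ) : ℝ) := by rw [h1]
    push_cast at h4
    rw [← h4, sum_mul]
    refine sum_congr rfl fun c hc => ?_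
    rw [if_neg (mem_sdiff.1 hc).2]
  have h5 : ∑ c ∈ S, (a c : ℝ) * (if c ∈ S then (if j = 0 then 1 else 0) else
      (if j = 1 then 1 else 0)) = τ * (if j = 0 then 1 else 0) := by
    have h4 : ((∑ c ∈ S, a c : ℕ) : ℝ) = ((τ : ℕ) : ℝ) := by rw [hSτ]
    push_cast at h4
    rw [← h4, sum_mul]
    refine sum_congr rfl fun c hc => ?_
    rw [if_pos hc]
  rw [h3, h5]
  split_ifs with h6 h7 <;> simp_all

theorem paysum {n : ℕ} (hn : 3 ≤ n) (s : ℝ) :
    ∑ b ∈ range (n - 2), pay n s (b + 2) = 3 * (n : ℝ) - 6 + s := by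
  obtain ⟨q, rfl⟩ := Nat.exists_eq_add_of_le' hn
  have e : q + 3 - 2 = q + 1 := by omega
  rw [e, sum_range_succ']
  have h1 : ∀ b, pay (q + 3) s (b + 1 + 2) = 3 - s := fun b => by
    unfold pay
    rw [if_neg (by omega)]
  simp_rw [h1]
  unfold pay
  simp
  ring

/-- the loads and the deviations of the bundles: everybody prefers the own bundle -/
theorem key {n τ : ℕ} (hn : 3 ≤ n) {U σ s δ : ℝ} (hU : 0 < U) (hσ : 0 < σ) (hs : n * s = σ / 2)
    (hδ : δ ≤ s) (hδ0 : 0 ≤ δ) (h2 : 6 * τ * U + 2 * σ ≤ 1 / 120) {i j : ℕ} (hij : j ≠ i) :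
    (if j = 0 then 3 * (n : ℝ) - 6 + s else if 2 ≤ j then -pay n s j else 0) +
      (-(cA n τ U i * (if j = 0 then 1 else 0)) + (if i ≤ 1 then 0 else -2 * (if j = 1 then 1 else 0)) +
      (if 2 ≤ i then (if i = 2 then 1 - 2 * τ * U + σ else 1) * (if j = i then 1 else 0) else 0) -
      (if i = 2 then U * (if j = 0 then (τ : ℝ) else if j = 1 then 2 * τ else 0) else 0)) + δ ≤
    (if i = 0 then 3 * (n : ℝ) - 6 + s else if 2 ≤ i then -pay n s i else 0) +
      (-(cA n τ U i * (if i = 0 then 1 else 0)) + (if i ≤ 1 then 0 else -2 * (if i = 1 then 1 else 0)) +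
      (if 2 ≤ i then (if i = 2 then 1 - 2 * τ * U + σ else 1) * (if i = i then 1 else 0) else 0) -
      (if i = 2 then U * (if i = 0 then (τ : ℝ) else if i = 1 then 2 * τ else 0) else 0)) := by
  have hnR : (3 : ℝ) ≤ n := by exact_mod_cast hn
  have hτU : 0 ≤ (τ : ℝ) * U := mul_nonneg (Nat.cast_nonneg _) hU.le
  have hs0 : 0 ≤ s := by linarith
  have hs1 : s ≤ σ / 6 := by nlinarith
  have hi : i = 0 ∨ i = 1 ∨ i = 2 ∨ 3 ≤ i := by omega
  have hj : j = 0 ∨ j = 1 ∨ j = 2 ∨ 3 ≤ j := by omega
  rcases hi with rfl | rfl | rfl | hi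
  · rcases hj with rfl | rfl | rfl | hj
    · exact absurd rfl hij
    · norm_num [cA, pay]
      nlinarith
    · norm_num [cA, pay]
      nlinarith
    · have h1 : j ≠ 0 := by omega
      have h2 : j ≠ 1 := by omega
      have h3 : j ≠ 2 := by omega
      have h4 : 2 ≤ j := by omega
      norm_num [cA, pay, h1, h2, h3, h4]
      nlinarith
  · rcases hj with rfl | rfl | rfl | hj
    · norm_num [cA, pay]
      nlinarith
    · exact absurd rfl hij
    · norm_num [cA, pay]
      nlinarith
    · have h1 : j ≠ 0 := by omega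
      have h2 : j ≠ 1 := by omega
      have h3 : j ≠ 2 := by omega
      have h4 : 2 ≤ j := by omega
      norm_num [cA, pay, h1, h2, h3, h4]
      nlinarith
  · rcases hj with rfl | rfl | rfl | hj
    · norm_num [cA, pay]
      nlinarith
    · norm_num [cA, pay]
      nlinarith
    · exact absurd rfl hij
    · have h1 : j ≠ 0 := by omega
      have h2 : j ≠ 1 := by omega
      have h3 : j ≠ 2 := by omega
      have h4 : 2 ≤ j := by omega
      norm_num [cA, pay, h1, h2, h3, h4]
      nlinarith
  · have g1 : i ≠ 0 := by omega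
    have g2 : i ≠ 1 := by omega
    have g3 : i ≠ 2 := by omega
    have g4 : 2 ≤ i := by omega
    have g5 : ¬ i ≤ 1 := by omega
    rcases hj with rfl | rfl | rfl | hj
    · norm_num [cA, pay, g1, g2, g3, g4, g5, hij]
      nlinarith
    · norm_num [cA, pay, g1, g2, g3, g4, g5, hij]
      nlinarith
    · norm_num [cA, pay, g1, g2, g3, g4, g5, hij]
      nlinarith
    · have h1 : j ≠ 0 := by omega
      have h2 : j ≠ 1 := by omega
      have h3 : j ≠ 2 := by omega
      have h4 : 2 ≤ j := by omega
      norm_num [cA, pay, h1, h2, h3, h4, g1, g2, g3, g4, g5, hij]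
      nlinarith

theorem own_lt {n : ℕ} (hn : 3 ≤ n) (S : Finset ℕ) {b : ℕ} (hb : b < n) (c : ℕ) : own S b c < n := by
  unfold own
  split_ifs <;> omega

open scoped Classical in
/-- **Completeness.** -/
theorem core_yes {n N τ : ℕ} (hn : 3 ≤ n) (hN : 1 ≤ N) {U σ g M : ℝ} (hP : Par n N τ U σ g M)
    (a : ℕ → ℕ) (ha : ∑ c ∈ Finset.range N, a c = 3 * τ) (S : Finset ℕ) (hS : S ⊆ Finset.range N)
    (hSτ : ∑ c ∈ S, a c = τ) (v : Fin n → Fin n × Fin (N + 1) → ℝ)
    (hv : ∀ i o, |v i o - (M + w n τ U σ a i o.1 o.2)| ≤ g) :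
    ∃ z : Fin n → Fin n × Fin (N + 1) → ℝ, (∀ i o, 0 ≤ z i o) ∧ (∀ o, ∑ i, z i o = 1) ∧
      (∀ i j, ∑ o, v i o * z j o ≤ ∑ o, v i o * z i o) ∧
      (Finset.univ.filter fun o => ∃ i, 0 < z i o ∧ z i o < 1).card ≤ n - 2 := by
  have hnR : (3 : ℝ) ≤ n := by exact_mod_cast hn
  have hn0 : (0 : ℝ) < n := by linarith
  have hτ0 : (0 : ℝ) ≤ τ := Nat.cast_nonneg _
  have hU := hP.hU
  have hσ : 0 < σ := by rw [hP.hσ]; linarith
  have hg := hP.hg
  have hτU : 0 ≤ (τ : ℝ) * U := mul_nonneg hτ0 hU.le
  set s : ℝ := σ / (2 * n) with hsdef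
  have hs : n * s = σ / 2 := by
    rw [hsdef]
    field_simp
  have hs0 : 0 < s := by rw [hsdef]; positivity
  have h2 : 6 * τ * U + 2 * σ ≤ 1 / 120 := by
    have h3 := hP.h2
    nlinarith
  have hσ1 : σ ≤ 1 / 240 := by nlinarith
  -- payments
  have hM : 1000 ≤ M := by
    refine le_trans ?_ hP.h3
    have e1 : (9 : ℝ) ≤ (n : ℝ) ^ 2 := by nlinarith
    have e2 : (13 : ℝ) ≤ 3 * n + 4 := by linarith
    have e3 : (9 : ℝ) * 13 ≤ (n : ℝ) ^ 2 * (3 * n + 4) :=
      mul_le_mul e1 e2 (by norm_num) (by positivity)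
    have e4 : (n : ℝ) ^ 2 * (3 * n + 4) ≤ (τ + 1) * ((n : ℝ) ^ 2 * (3 * n + 4)) :=
      le_mul_of_one_le_left (by positivity) (by linarith)
    linarith
  have hM0 : 0 < M := by linarith
  set φ : ℕ → ℝ := fun b => pay n s b / M with hφ
  have hpay : ∀ b, 0 < pay n s b ∧ pay n s b ≤ 4 := by
    intro b
    unfold pay
    split_ifs
    · constructor <;> nlinarith
    · constructor <;> nlinarith
  have hφ0 : ∀ b, 0 < φ b := fun b => div_pos (hpay b).1 hM0
  have hφ1 : ∀ b, φ b < 1 := fun b => by
    have := (hpay b).2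
    show pay n s b / M < 1
    rw [div_lt_one hM0]
    linarith
  have hφM : ∀ b, M * φ b = pay n s b := fun b => by
    show M * (pay n s b / M) = pay n s b
    field_simp
  -- the allocation
  let z : Fin n → Fin n × Fin (N + 1) → ℝ := fun i o => al S φ i o.1 o.2
  have hz0 : ∀ i o, 0 ≤ z i o := by
    rintro i ⟨b, c⟩
    show 0 ≤ al S φ i b c
    have e0 := hφ0 b
    have e1 := hφ1 b
    by_cases h1 : 2 ≤ b.val ∧ c.val = 1
    · have e2 : own S b c = b.val := by
        unfold own
        rw [if_neg (by omega), if_neg (by omega)]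
      unfold al
      rw [if_pos h1, e2]
      by_cases h3 : i.val = b.val
      · rw [if_pos h3, if_neg (by omega), if_pos h3]
        linarith
      · rw [if_neg h3, if_neg h3, zero_add]
        split_ifs <;> linarith
    · unfold al
      rw [if_neg h1, add_zero]
      split_ifs <;> norm_num
  have hz1 : ∀ o, ∑ i, z i o = 1 := by
    rintro ⟨b, c⟩
    show ∑ i : Fin n, al S φ i b c = 1
    unfold al
    rw [sum_add_distrib]
    have e1 : ∑ i : Fin n, (if i.val = own S b c then (1 : ℝ) else 0) = 1 := by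
      rw [sum_eq_single (⟨own S b c, own_lt hn S b.2 c⟩ : Fin n)]
      · exact if_pos rfl
      · intro i _ hi
        exact if_neg fun h => hi (Fin.ext h)
      · intro h
        exact absurd (mem_univ _) h
    have e2 : ∑ i : Fin n, (if 2 ≤ b.val ∧ c.val = 1 then
        (if i.val = 0 then φ b else if i.val = b then -φ b else 0) else 0) = 0 := by
      by_cases h : 2 ≤ b.val ∧ c.val = 1
      · simp only [if_pos h]
        have hb0 : (⟨0, by omega⟩ : Fin n) ≠ b := fun hh => by
          have := congrArg Fin.val hh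
          simp only at this
          omega
        rw [Fintype.sum_eq_add (⟨0, by omega⟩ : Fin n) b hb0]
        · rw [if_pos rfl, if_neg (by omega), if_pos rfl]
          ring
        · rintro i ⟨h3, h4⟩
          rw [if_neg fun h5 => h3 (Fin.ext h5), if_neg fun h5 => h4 (Fin.ext h5)]
      · exact sum_eq_zero fun i _ => if_neg h
    rw [e1, e2, add_zero]
  have hle1 : ∀ i o, z i o ≤ 1 := by
    intro i o
    rw [← hz1 o]
    exact single_le_sum (f := fun i => z i o) (fun i _ => hz0 i o) (mem_univ i)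
  refine ⟨z, hz0, hz1, ?_, ?_⟩
  · -- envy
    have hY : ∀ j : Fin n, ∑ o, z j o = N + 1 + (if j.val = 0 then ∑ b ∈ range (n - 2), φ (b + 2)
        else if 2 ≤ j.val then -φ j else 0) := by
      intro j
      rw [← alsum (by omega : 2 ≤ n) hN S φ j.2, Fintype.sum_prod_type, sum_range]
      refine sum_congr rfl fun b _ => ?_
      rw [sum_range]
    have hMY : ∀ j : Fin n, M * ∑ o, z j o = M * (N + 1) + (if j.val = 0 then 3 * (n : ℝ) - 6 + s
        else if 2 ≤ j.val then -pay n s j else 0) := by
      intro j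
      rw [hY, mul_add]
      congr 1
      split_ifs
      · rw [mul_sum, ← paysum hn s]
        exact sum_congr rfl fun b _ => hφM _
      · rw [mul_neg, hφM]
      · rw [mul_zero]
    have hW : ∀ i j : Fin n, ∑ o, w n τ U σ a i (Prod.fst o).val (Prod.snd o).val * z j o =
        -(cA n τ U i * (if j.val = 0 then 1 else 0)) +
        (if i.val ≤ 1 then 0 else -2 * (if j.val = 1 then 1 else 0)) +
        (if 2 ≤ i.val then (if i.val = 2 then 1 - 2 * τ * U + σ else 1) *
          (if j.val = i.val then 1 else 0) else 0) -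
        (if i.val = 2 then U * (if j.val = 0 then (τ : ℝ) else if j.val = 1 then 2 * τ else 0)
          else 0) := by
      intro i j
      rw [← al_num (φ := φ) (j := j.val) a hS ha hSτ, ← al_zero (S := S) (φ := φ) (j := j.val) (b := 0),
        ← al_zero (S := S) (φ := φ) (j := j.val) (b := 1),
        ← al_zero (S := S) (φ := φ) (j := j.val) (b := i.val),
        ← wsum (by omega : 2 ≤ n) U σ a i.2 (fun b c => al S φ j b c), Fintype.sum_prod_type, sum_range]
      refine sum_congr rfl fun b _ => ?_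
      rw [sum_range]
    have hcard : ∀ j : Fin n, ∑ o, z j o ≤ n * (N + 1) := by
      intro j
      calc ∑ o, z j o ≤ ∑ _o : Fin n × Fin (N + 1), (1 : ℝ) := sum_le_sum fun o _ => hle1 j o
        _ = n * (N + 1) := by
          rw [sum_const, card_univ, nsmul_eq_mul, mul_one, Fintype.card_prod, Fintype.card_fin,
            Fintype.card_fin]
          push_cast
          ring
    have hup : ∀ i j : Fin n, ∑ o, v i o * z j o ≤ M * ∑ o, z j o +
        ∑ o, w n τ U σ a i (Prod.fst o).val (Prod.snd o).val * z j o + g * (n * (N + 1)) := by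
      intro i j
      calc ∑ o, v i o * z j o ≤ ∑ o, (M * z j o +
            w n τ U σ a i (Prod.fst o).val (Prod.snd o).val * z j o + g * z j o) := by
            refine sum_le_sum fun o _ => ?_
            have e1 := (abs_le.1 (hv i o)).2
            have e2 : v i o ≤ M + w n τ U σ a i o.1 o.2 + g := by linarith
            calc v i o * z j o ≤ (M + w n τ U σ a i o.1 o.2 + g) * z j o :=
                  mul_le_mul_of_nonneg_right e2 (hz0 j o)
              _ = _ := by ring
        _ = M * ∑ o, z j o + ∑ o, w n τ U σ a i (Prod.fst o).val (Prod.snd o).val * z j o +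
            g * ∑ o, z j o := by
            rw [sum_add_distrib, sum_add_distrib, mul_sum, mul_sum]
        _ ≤ _ := by
            have := mul_le_mul_of_nonneg_left (hcard j) hg
            linarith
    have hlow : ∀ i j : Fin n, M * ∑ o, z j o +
        ∑ o, w n τ U σ a i (Prod.fst o).val (Prod.snd o).val * z j o ≤
          ∑ o, v i o * z j o + g * (n * (N + 1)) := by
      intro i j
      calc M * ∑ o, z j o + ∑ o, w n τ U σ a i (Prod.fst o).val (Prod.snd o).val * z j o =
            ∑ o, (M * z j o + w n τ U σ a i (Prod.fst o).val (Prod.snd o).val * z j o) := by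
            rw [sum_add_distrib, mul_sum]
        _ ≤ ∑ o, (v i o * z j o + g * z j o) := by
            refine sum_le_sum fun o _ => ?_
            have e1 := (abs_le.1 (hv i o)).1
            have e2 : M + w n τ U σ a i o.1 o.2 ≤ v i o + g := by linarith
            calc M * z j o + w n τ U σ a i o.1 o.2 * z j o =
                  (M + w n τ U σ a i o.1 o.2) * z j o := by ring
              _ ≤ (v i o + g) * z j o := mul_le_mul_of_nonneg_right e2 (hz0 j o)
              _ = _ := by ring
        _ = ∑ o, v i o * z j o + g * ∑ o, z j o := by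
            rw [sum_add_distrib, mul_sum]
        _ ≤ _ := by
            have := mul_le_mul_of_nonneg_left (hcard j) hg
            linarith
    intro i j
    by_cases hij : j.val = i.val
    · rw [Fin.ext hij]
    · have hδ : 2 * (g * (n * (N + 1))) ≤ s := by
        have h1 := hP.h1
        have e1 : (2 * n) * (2 * (g * (n * (N + 1)))) ≤ (2 * n) * s := by
          have : (2 * n) * s = σ := by linarith
          rw [this]
          calc (2 * (n : ℝ)) * (2 * (g * (n * (N + 1)))) = 4 * n * (n * (N + 1)) * g := by ring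
            _ ≤ σ := h1
        exact le_of_mul_le_mul_left e1 (by positivity)
      have hδ0 : 0 ≤ 2 * (g * ((n : ℝ) * (N + 1))) := by positivity
      have hk := key hn hU hσ hs hδ hδ0 h2 hij
      have u1 := hup i j
      have u2 := hlow i i
      rw [hMY, hW] at u1 u2
      linarith
  · -- the shared objects
    have hsub : (Finset.univ.filter fun o => ∃ i, 0 < z i o ∧ z i o < 1) ⊆
        (Finset.univ.filter fun b : Fin n => 2 ≤ b.val).image
          fun b => (b, (⟨1, by omega⟩ : Fin (N + 1))) := by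
      rintro ⟨b, c⟩ h
      rw [mem_filter] at h
      obtain ⟨-, i, hi1, hi2⟩ := h
      rw [mem_image]
      by_cases h1 : 2 ≤ b.val ∧ c.val = 1
      · refine ⟨b, mem_filter.2 ⟨mem_univ _, h1.1⟩, ?_⟩
        rw [Prod.mk.injEq]
        exact ⟨rfl, Fin.ext h1.2.symm⟩
      · exfalso
        have e1 : z i (b, c) = if i.val = own S b c then 1 else 0 := by
          show al S φ i b c = _
          unfold al
          rw [if_neg h1, add_zero]
        rw [e1] at hi1 hi2
        split_ifs at hi1 hi2 <;> linarith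
    refine (card_le_card hsub).trans (card_image_le.trans ?_)
    have e1 : (Finset.univ.filter fun b : Fin n => 2 ≤ b.val).card + 2 ≤ n := by
      have e2 : (Finset.univ.filter fun b : Fin n => 2 ≤ b.val).card +
          (Finset.univ.filter fun b : Fin n => ¬ 2 ≤ b.val).card = n := by
        rw [card_filter_add_card_filter_not, card_univ, Fintype.card_fin]
      have e3 : ({⟨0, by omega⟩, ⟨1, by omega⟩} : Finset (Fin n)) ⊆
          Finset.univ.filter fun b : Fin n => ¬ 2 ≤ b.val := by
        intro x hx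
        rw [mem_insert, mem_singleton] at hx
        rcases hx with rfl | rfl <;> simp
      have e4 := card_le_card e3
      rw [card_pair (by simp)] at e4
      omega
    omega

end Pool.Agent.FairDivS
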