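import Pool.Agent.Lib_MP_42f051_lc_s.SComb
import Pool.Agent.Lib_MP_42f051_lc_s.SYes
import Pool.Agent.Lib_MP_42f051_lc_s.SNo

/-!
# The combinatorial core
-/

namespace Pool.Agent.FairDivS

open Pool.Agent.FairDiv

theorem combS {n : ℕ} (hn : 3 ≤ n) (D τ : ℕ) (A : List ℕ) (hA : A ≠ []) (hlt : ∀ a ∈ A, a < 8 ^ D)
    (h2τ : 2 * τ < 8 ^ D) (hD : D ≤ A.length) (hsum : A.sum = 3 * τ) (y : List ℕ)
    (hy : y.length = (instS n D τ A).length)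
    (hd : ∀ i, |((y.getD i 0 : ℕ) : ℤ) - ((instS n D τ A).getD i 0 : ℕ)| ≤
      ((2 ^ (instS n D τ A).length : ℕ) : ℤ)) :
    EFSharedObj n (n - 2) y ↔ ∃ S ⊆ Finset.range A.length, ∑ c ∈ S, A.getD c 0 = τ := by
  obtain ⟨U, σ, g, M, v, hP, hv, h⟩ := exists_core hn D τ A hA hlt h2τ hD y hy hd
  have ha : ∑ c ∈ Finset.range A.length, A.getD c 0 = 3 * τ := by rw [sum_getD, hsum]
  rw [h]
  constructor
  · rintro ⟨z, h0, h1, hEF, hs⟩
    exact core_no hn hP _ ha v hv z h0 h1 hEF hs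
  · rintro ⟨S, hS, hSτ⟩
    exact core_yes hn (List.length_pos_iff.2 hA) hP _ ha S hS hSτ v hv

end Pool.Agent.FairDivS
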