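import Pool.Agent.Lib_MP_42f051_lc.FPV
import Pool.Agent.Lib_MP_42f051_lc_s.SDefs

/-!
# The instance for EF-SharedObj(n, n - 2) is computed in polynomial time
-/

namespace Pool.Agent.FairDivS

open Pool.Agent.FairDiv
open Pool.Agent.RAC Pool.Agent.Lib_MP_8cd8c6_lc
open Pool.Agent.PartSep Pool.Agent.PartSep.TM Pool.Agent.PartSep.CL
open Pool.Agent.PartSep.TM.Rep N487b59b3

set_option synthInstance.maxSize 2000

variable {E : Type} [Rep E]

/-! ### Binary codes -/

theorem strip_one (l : List Bool) : strip (l ++ [true]) = l ++ [true] := by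
  induction l with
  | nil => simp [strip]
  | cons a l ih =>
    rw [List.cons_append, strip_cons, ih]
    simp

theorem encode_one (l : List Bool) :
    Computability.encodeNat (valB (l ++ [true])) = l ++ [true] := by
  rw [encodeNat_valB, strip_one]

theorem bitsN_length (n d : ℕ) : (bitsN n d).length = n := by simp [bitsN]

theorem valB_zeros (s : ℕ) : valB (List.replicate s false) = 0 := by
  induction s with
  | zero => simp [valB]
  | succ s ih => simp [List.replicate_succ, valB, ih]

/-- the bits of the complement of the number with the digits `ds` -/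
def cbits (ds : List ℕ) : List Bool := ds.flatMap (fun d => bitsN 3 (7 - d))

theorem cbits_length (ds : List ℕ) : (cbits ds).length = 3 * ds.length := by
  unfold cbits
  induction ds with
  | nil => rfl
  | cons d ds ih =>
    rw [List.flatMap_cons, List.length_append, ih, bitsN_length, List.length_cons]
    ring

theorem ofDigits_lt8 {ds : List ℕ} (h : ∀ d ∈ ds, d < 8) :
    Nat.ofDigits 8 ds < 8 ^ ds.length :=
  Nat.ofDigits_lt_base_pow_length (by norm_num) h

theorem valB_cbits {ds : List ℕ} (h : ∀ d ∈ ds, d < 8) :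
    valB (cbits ds) = 8 ^ ds.length - 1 - Nat.ofDigits 8 ds := by
  induction ds with
  | nil => rfl
  | cons d ds ih =>
    have h1 := h d List.mem_cons_self
    have h2 : ∀ e ∈ ds, e < 8 := fun e he => h e (List.mem_cons_of_mem _ he)
    have h3 := ih h2
    have h4 := ofDigits_lt8 h2
    have e0 : cbits (d :: ds) = bitsN 3 (7 - d) ++ cbits ds := rfl
    rw [e0, valB_append, bitsN_length, valB_bitsN (by norm_num; omega), h3, Nat.ofDigits_cons,
      List.length_cons, pow_succ]
    omega

/-! ### The code of an entry -/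

/-- table of the complements of the digits -/
def tab7 : List (List Sym) := (List.range 8).map (fun d => (bitsN 3 (7 - d)).map bs)

/-- the bits of `7 - d` -/
def b7 (d : ℕ) : List Sym := tab7[d]?.getD []

theorem b7_eq {d : ℕ} (h : d < 8) : b7 d = (bitsN 3 (7 - d)).map bs := by
  unfold b7 tab7
  rw [List.getElem?_map, List.getElem?_range h]
  rfl

theorem fp_b7 {d : E → ℕ} (hd : FP d) : FP (fun x => b7 (d x)) :=
  FP.getE (FP.const tab7) hd []

/-- the code of an entry -/
def entC (t L e : ℕ) (ds : List ℕ) (Y : ℕ) : List Sym :=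
  List.replicate (2 * t) Sym.o ++ ((bitsN 3 e).map bs ++ (ds.flatMap b7 ++
    (List.replicate (2 * t) Sym.o ++ ((bitsN L Y).map bs ++
      (List.replicate (6 * t) Sym.o ++ [Sym.i])))))

theorem entC_eq {t D L e Y : ℕ} {ds : List ℕ} (he : e < 8) (hY : Y < 2 ^ L)
    (hl : ds.length = D) (hd : ∀ d ∈ ds, d < 8) :
    entC t L e ds Y =
      (Computability.encodeNat (ent t D L e (8 ^ D - 1 - Nat.ofDigits 8 ds) Y)).map bs := by
  subst hl
  have h1 : ent t ds.length L e (8 ^ ds.length - 1 - Nat.ofDigits 8 ds) Y =
      valB ((List.replicate (2 * t) false ++ (bitsN 3 e ++ (cbits ds ++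
        (List.replicate (2 * t) false ++ (bitsN L Y ++ List.replicate (6 * t) false))))) ++
          [true]) := by
    simp only [valB_append, List.length_append, List.length_replicate, bitsN_length,
      cbits_length, valB_zeros, valB_cbits hd, valB_bitsN hY]
    rw [valB_bitsN (by norm_num; omega)]
    unfold ent
    simp only [valB, Bool.toNat_true]
    ring
  rw [h1, encode_one]
  simp only [List.map_append, List.map_replicate, List.append_assoc]
  unfold entC cbits
  rw [List.map_flatMap, flatMap_congr' fun d h => b7_eq (hd d h)]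
  rfl

theorem fp_entC {t : E → ℕ} (ht : FP t) (L e : ℕ) {ds : E → List ℕ} (hd : FP ds) (Y : ℕ) :
    FP (fun x => entC (t x) L e (ds x) Y) := by
  unfold entC
  refine FP.append (fp_zeros (FP.mulConst ht 2)) (FP.append (FP.const _) (FP.append ?_
    (FP.append (fp_zeros (FP.mulConst ht 2)) (FP.append (FP.const _)
      (FP.append (fp_zeros (FP.mulConst ht 6)) (FP.const _))))))
  exact FP.flatMapS hd (g := fun y : E × ℕ => b7 y.2) (fp_b7 FP.snd)

/-! ### The code of the instance -/

/-- a row of zeros -/
def zrow (k : ℕ) : List ℕ := (List.range k).map (fun _ => 0)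

theorem zrow_length (k : ℕ) : (zrow k).length = k := by simp [zrow]

theorem zrow_lt {k : ℕ} : ∀ d ∈ zrow k, d < 8 := by
  intro d hd
  simp only [zrow, List.mem_map] at hd
  obtain ⟨_, _, rfl⟩ := hd
  norm_num

theorem ofDigits_zrow (k : ℕ) : Nat.ofDigits 8 (zrow k) = 0 := by
  have h : ∀ l : List ℕ, Nat.ofDigits 8 (l.map (fun _ => 0)) = 0 := by
    intro l
    induction l with
    | nil => rfl
    | cons a l ih => rw [List.map_cons, Nat.ofDigits_cons, ih]
  exact h _

/-- the digits of `xs` -/
def xds (m i b : ℕ) : List ℕ :=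
  if i = 2 ∧ b = 0 then dTau m
  else if i = 2 ∧ b = 2 then (dTau m).map (fun d => 2 * d) else zrow (4 * m + 1)

theorem dTau_length (m : ℕ) : (dTau m).length = 4 * m + 1 := by
  simp only [dTau, List.length_append, List.length_map, List.length_range, List.length_cons,
    List.length_nil]
  omega

theorem dTau_le {m : ℕ} : ∀ d ∈ dTau m, d ≤ 2 := by
  intro d hd
  simp only [dTau, List.mem_append, List.mem_map, List.mem_cons,
    List.not_mem_nil, or_false] at hd
  rcases hd with ⟨_, _, rfl⟩ | ⟨_, _, rfl⟩ | rfl <;> omega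

theorem ofDigits_double (l : List ℕ) :
    Nat.ofDigits 8 (l.map (fun d => 2 * d)) = 2 * Nat.ofDigits 8 l := by
  induction l with
  | nil => rfl
  | cons a l ih =>
    rw [List.map_cons, Nat.ofDigits_cons, ih, Nat.ofDigits_cons]
    ring

theorem xds_length (m i b : ℕ) : (xds m i b).length = 4 * m + 1 := by
  unfold xds
  split_ifs
  · exact dTau_length m
  · rw [List.length_map]; exact dTau_length m
  · exact zrow_length _

theorem xds_lt (m i b : ℕ) : ∀ d ∈ xds m i b, d < 8 := by
  unfold xds
  split_ifs
  · intro d hd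
    have := dTau_le d hd
    omega
  · intro d hd
    obtain ⟨c, hc, rfl⟩ := List.mem_map.1 hd
    have := dTau_le c hc
    omega
  · exact zrow_lt

theorem ofDigits_xds (m i b : ℕ) : Nat.ofDigits 8 (xds m i b) = xs (FairDiv.tau 3 m) i b := by
  have h8 : FairDiv.tau 3 m = Nat.ofDigits 8 (dTau m) := by unfold FairDiv.tau; norm_num
  unfold xds xs
  split_ifs
  · exact h8.symm
  · rw [ofDigits_double, h8]
  · exact ofDigits_zrow _

theorem es_lt (i b : ℕ) : es i b < 8 := by unfold es; split_ifs <;> norm_num

theorem two_pow_gt (n : ℕ) : 3 * n < 2 ^ (3 * n) := Nat.lt_two_pow_self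

theorem ys_lt {n : ℕ} (hn : 3 ≤ n) (i b : ℕ) : ys n i b < 2 ^ (3 * n) := by
  have := two_pow_gt n
  unfold ys
  split_ifs <;> omega

section

variable {ν : Type} [DecidableEq ν] [Inhabited ν]

/-- number of entries -/
def entriesS (n : ℕ) (I : List (Trip ν)) : ℕ := n * (n * ((digs 3 I).length + 1))

/-- the code of the instance -/
def outS (n : ℕ) (I : List (Trip ν)) : List Sym :=
  (List.range n).flatMap fun i => (List.range n).flatMap fun b =>
    del (entC (entriesS n I) (3 * n) (es i b) (xds I.length i b) (ys n i b)) ++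
      (digs 3 I).flatMap (fun ds => del (entC (entriesS n I) (3 * n) 0
        (if i = 2 ∧ b = 0 then ds else zrow (4 * I.length + 1)) (3 * n - 2)))

theorem outS_eq {n : ℕ} (hn : 3 ≤ n) (I : List (Trip ν)) :
    outS n I = (bitEncode (instS n (4 * I.length + 1) (FairDiv.tau 3 I.length) (nums 3 I))).map bs := by
  have e0 : (nums 3 I).length = (digs 3 I).length := by unfold nums; rw [List.length_map]
  have hY : 3 * n - 2 < 2 ^ (3 * n) := by
    have := two_pow_gt n
    omega
  rw [bitEncode_list]
  unfold instS outS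
  rw [List.flatMap_assoc]
  congr 1
  funext i
  rw [List.flatMap_assoc]
  congr 1
  funext b
  rw [List.flatMap_cons, e0]
  congr 1
  · rw [entC_eq (es_lt i b) (ys_lt hn i b) (xds_length _ _ _) (xds_lt _ _ _), ofDigits_xds]
    rfl
  · unfold nums
    rw [List.map_map, List.flatMap_map]
    apply flatMap_congr'
    intro ds hds
    have h1 : ds.length = 4 * I.length + 1 := dig_length 3 I ds hds
    have h2 : ∀ d ∈ ds, d < 8 := fun d hd => dig_lt (le_refl 3) I ds hds d hd
    by_cases h : i = 2 ∧ b = 0
    · simp only [if_pos h, Function.comp]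
      rw [entC_eq (by norm_num) hY h1 h2]
      rfl
    · simp only [if_neg h, Function.comp]
      rw [entC_eq (by norm_num) hY (zrow_length _) zrow_lt, ofDigits_zrow]
      rfl

end

/-! ### Polynomial time -/

theorem fp_dTau {m : E → ℕ} (hm : FP m) : FP (fun x => dTau (m x)) := by
  unfold dTau
  exact FP.appendE (fp_const_row (FP.mulConst hm 3) 1)
    (FP.appendE (fp_const_row hm 2) (FP.const _))

theorem fp_zrow {k : E → ℕ} (hk : FP k) : FP (fun x => zrow (k x)) :=
  fp_const_row hk 0

theorem fp_xds {m : E → ℕ} (hm : FP m) (i b : ℕ) : FP (fun x => xds (m x) i b) := by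
  unfold xds
  by_cases h : i = 2 ∧ b = 0
  · simp only [if_pos h]
    exact fp_dTau hm
  · simp only [if_neg h]
    by_cases h' : i = 2 ∧ b = 2
    · simp only [if_pos h']
      exact FP.mapE (fp_dTau hm) (g := fun y : E × ℕ => 2 * y.2) (FP.mulConst FP.snd 2)
    · simp only [if_neg h']
      exact fp_zrow (FP.add (FP.mulConst hm 4) (FP.const 1))

theorem fp_outS (n : ℕ) {I : E → List (Trip (NV Name))} (hI : FP I) :
    FP (fun x => outS n (I x)) := by
  unfold outS
  have hd := fp_digs 3 hI
  have ht : FP (fun x => entriesS n (I x)) :=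
    FP.mulConst (FP.mulConst (FP.add (FP.lengthE hd) (FP.const 1)) n) n
  refine flatMapConstS _ (fun i => flatMapConstS _ (fun b => FP.append ?_ ?_))
  · exact FP.del (fp_entC ht _ _ (fp_xds (FP.lengthE hI) i b) _)
  · by_cases h : i = 2 ∧ b = 0
    · simp only [if_pos h]
      exact FP.flatMapS hd (g := fun y : E × List ℕ =>
          del (entC (entriesS n (I y.1)) (3 * n) 0 y.2 (3 * n - 2)))
        (FP.del (fp_entC (FP.comp ht FP.fst) _ _ FP.snd _))
    · simp only [if_neg h]
      exact FP.flatMapS hd (g := fun y : E × List ℕ =>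
          del (entC (entriesS n (I y.1)) (3 * n) 0 (zrow (4 * (I y.1).length + 1)) (3 * n - 2)))
        (FP.del (fp_entC (FP.comp ht FP.fst) _ _
          (fp_zrow (FP.add (FP.mulConst (FP.lengthE (FP.comp hI FP.fst)) 4) (FP.const 1))) _))

end Pool.Agent.FairDivS
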