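import Pool.Agent.Lib_MP_42f051_lc.DigB

/-!
# The numbers with `n = 3`
-/

namespace Pool.Agent.FairDivS

open Pool.Agent.RAC Pool.Agent.Lib_MP_8cd8c6_lc Pool.Agent.FairDiv

theorem sumGetD (A : List ℕ) : ∑ o ∈ Finset.range A.length, A.getD o 0 = A.sum := by
  induction A with
  | nil => simp
  | cons x A ih =>
    rw [List.length_cons, Finset.sum_range_succ', List.sum_cons, ← ih, add_comm]
    simp

theorem subK_iff (A : List ℕ) (τ : ℕ) (hsum : A.sum = 3 * τ) :
    (∃ S ⊆ Finset.range A.length, ∑ c ∈ S, A.getD c 0 = τ) ↔ SubK 3 A τ := by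
  constructor
  · rintro ⟨S, hS, h⟩
    refine ⟨1, le_rfl, by norm_num, fun o => decide (o ∈ S), ?_⟩
    rw [one_mul, ← h]
    simp only [decide_eq_true_eq]
    rw [← Finset.sum_filter, Finset.filter_mem_eq_inter, Finset.inter_eq_right.2 hS]
  · rintro ⟨k, hk1, hk3, χ, h⟩
    have hk : k = 1 ∨ k = 2 := by omega
    rcases hk with rfl | rfl
    · refine ⟨(Finset.range A.length).filter fun o => χ o = true, Finset.filter_subset _ _, ?_⟩
      rw [Finset.sum_filter, h, one_mul]
    · refine ⟨(Finset.range A.length).filter fun o => ¬ χ o = true, Finset.filter_subset _ _, ?_⟩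
      have h1 := Finset.sum_filter_add_sum_filter_not (Finset.range A.length)
        (fun o => χ o = true) (fun o => A.getD o 0)
      rw [sumGetD, hsum, Finset.sum_filter, h] at h1
      omega

theorem nums_lt {ν : Type} [DecidableEq ν] [Inhabited ν] (I : List (Trip ν)) :
    ∀ a ∈ nums 3 I, a < 8 ^ (4 * I.length + 1) := by
  intro a ha
  obtain ⟨ds, hds, rfl⟩ := List.mem_map.1 ha
  have h1 := Nat.ofDigits_lt_base_pow_length (b := 2 ^ 3) (l := ds)
    (by norm_num) (dig_lt (n := 3) le_rfl I ds hds)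
  rw [dig_length 3 I ds hds] at h1
  exact h1

theorem two_tau_lt (m : ℕ) : 2 * FairDiv.tau 3 m < 8 ^ (4 * m + 1) := by
  unfold FairDiv.tau
  rw [Nat.mul_ofDigits]
  have hlen : ((dTau m).map (2 * ·)).length = 4 * m + 1 := by
    simp [dTau]
    omega
  rw [← hlen]
  refine Nat.ofDigits_lt_base_pow_length (b := 2 ^ 3) (by norm_num) fun x hx => ?_
  obtain ⟨d, hd, rfl⟩ := List.mem_map.1 hx
  simp only [dTau, List.mem_append, List.mem_map, List.mem_range, List.mem_cons,
    List.not_mem_nil, or_false] at hd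
  rcases hd with ⟨p, -, rfl⟩ | ⟨l, -, rfl⟩ | rfl <;> norm_num

theorem nums_length {ν : Type} [DecidableEq ν] [Inhabited ν] (n : ℕ) (I : List (Trip ν)) :
    (nums n I).length = 7 * I.length + 2 := by
  unfold nums
  rw [List.length_map, digs_length]

end Pool.Agent.FairDivS
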