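import Pool.Agent.Lib_MP_42f051_lc.Final
import Pool.Agent.Lib_MP_42f051_lc_s.SBound
import Pool.Agent.Lib_MP_42f051_lc_s.SNum
import Pool.Agent.Lib_MP_42f051_lc_s.SCombS
import Pool.Agent.Lib_MP_42f051_lc_s.SFP

/-!
# Generic NP-hardness of EF-SharedObj(n, n - 2)
-/

namespace Pool.Agent.FairDivS

open Pool.Agent.FairDiv
open Pool.Agent.RAC Pool.Agent.Lib_MP_8cd8c6_lc
open Pool.Agent.PartSep Pool.Agent.PartSep.TM Pool.Agent.PartSep.CL
open Pool.Agent.PartSep.TM.Rep N487b59b3

set_option synthInstance.maxSize 2000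

/-- The reduction: for every language in NP there is a polynomial time map to instances which are
robust against changes of the entries by at most `2 ^ t`. -/
theorem reductionS {n : ℕ} (hn : 3 ≤ n) {L : List Bool → Bool} (hL : L ∈ N68a2faeb.NP) :
    ∃ h : List Bool → List ℕ, N68a2faeb.IsPolyTime h ∧
      ∀ x, n ∣ (h x).length ∧ (∀ a ∈ h x, a ≤ 2 ^ (20 * (h x).length)) ∧
        ∀ y : List ℕ, y.length = (h x).length →
          (∀ i, |((y.getD i 0 : ℕ) : ℤ) - ((h x).getD i 0 : ℕ)| ≤ ((2 ^ (h x).length : ℕ) : ℤ)) →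
            (EFSharedObj n (n - 2) y ↔ L x = true) := by
  obtain ⟨g, hg, hLg⟩ := cook_levin hL
  refine ⟨fun x => instS n (4 * (nae (g ((bitEncode x).map bs))).length + 1)
    (FairDiv.tau 3 (nae (g ((bitEncode x).map bs))).length)
    (nums 3 (nae (g ((bitEncode x).map bs)))), ?_, fun x => ⟨?_, ?_, ?_⟩⟩
  · exact isPolyTime_list (g := fun s => outS n (nae (g s))) (fp_outS n (fp_nae hg))
      (fun x => outS_eq hn _)
  · rw [instS_length]
    exact Dvd.intro _ rfl
  · exact instS_le hn _ (by rw [nums_length]; omega)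
  · intro y hy hd
    set I := nae (g ((bitEncode x).map bs)) with hI
    have h1 := combS hn (4 * I.length + 1) (FairDiv.tau 3 I.length) (nums 3 I)
      (fun h => by
        have := nums_length 3 I
        rw [h] at this
        simp at this)
      (nums_lt I) (two_tau_lt I.length) (by rw [nums_length]; omega) (nums_sum le_rfl I) y hy hd
    rw [h1, subK_iff _ _ (nums_sum le_rfl I), nums_iff le_rfl, dat_sat, nae_iff, ← hLg]

/-- EF-SharedObj(n, n - 2) is generically NP-hard for all `n ≥ 3`. -/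
theorem main (n : ℕ) (hn : 3 ≤ n) : GenericallyNPHard n (EFSharedObj n (n - 2)) := by
  obtain ⟨h, hh, H⟩ := reductionS hn circLT3_mem_NP
  exact ⟨20, circLT3, h, fun t => 2 ^ t, circLT3_complete.2, hh, pow_superpoly,
      fun x => ⟨(H x).1, (H x).2.1, fun y hy hd => (H x).2.2 y hy hd⟩⟩

end Pool.Agent.FairDivS
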